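import Pool.Agent.W_MP_a18a27_h33.Defs

set_option autoImplicit false

namespace Pool.Agent.A18

open Finset

/-- The weight of a cell is the sum of the weights of its subcells: the cell `P` of length `q * N` is the union of the cells
`P * q + s`, `s < q`, of length `N`.

PROOF.  `x / (q * N) = (x / N) / q` (`Nat.div_div_eq_div_mul`, `mul_comm`), and `(x/N)/q = P` iff `x / N = P * q + s` for
exactly one `s < q` (namely `s = (x/N) % q`).  `Finset.card_eq_sum_card_fiberwise` or `card_biUnion`. -/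
theorem wt_split (B : Finset ℕ) (N q P : ℕ) (hN : 0 < N) (hq : 0 < q) :
    wt B (q * N) P = ∑ s ∈ range q, wt B N (P * q + s) := by
  unfold wt
  rw [← Nat.cast_sum]
  congr 1
  rw [Finset.card_eq_sum_card_fiberwise (f := fun x => (x / N) % q) (t := range q)]
  · refine Finset.sum_congr rfl fun s hs => ?_
    rw [mem_range] at hs
    congr 1
    ext x
    simp only [mem_filter]
    have h1 : x / (q * N) = x / N / q := by rw [mul_comm, Nat.div_div_eq_div_mul]
    rw [h1]
    constructor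
    · rintro ⟨⟨hx, hP⟩, hr⟩
      refine ⟨hx, ?_⟩
      rw [← hP, ← hr, mul_comm]
      exact (Nat.div_add_mod _ _).symm
    · rintro ⟨hx, hx2⟩
      rw [hx2]
      refine ⟨⟨hx, ?_⟩, ?_⟩
      · rw [mul_comm, Nat.mul_add_div hq, Nat.div_eq_of_lt hs, add_zero]
      · rw [mul_comm, Nat.mul_add_mod, Nat.mod_eq_of_lt hs]
  · intro x _
    simpa using Nat.mod_lt _ hq

/-- PROOF.  Every `x ∈ B` is in exactly one cell: `x / N < n`. -/
theorem sum_wt (B : Finset ℕ) (N n : ℕ) (hB : ∀ x ∈ B, x / N < n) :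
    ∑ I ∈ range n, wt B N I = B.card := by
  unfold wt
  rw [← Nat.cast_sum]
  congr 1
  rw [Finset.card_eq_sum_card_fiberwise (f := fun x => x / N) (t := range n)]
  intro x hx
  simpa using hB x hx

/-- PROOF.  `range 1 = {0}`, `x / 2^i = 0` for `x < 2^i`. -/
theorem en_zero (B : Finset ℕ) (i : ℕ) (hB : ∀ x ∈ B, x < 2 ^ i) : en B i 0 = (B.card : ℝ) ^ 2 := by
  have h := sum_wt B (2 ^ i) 1 fun x hx => by
    rw [Nat.div_eq_of_lt (hB x hx)]
    exact Nat.one_pos
  unfold en
  simp only [pow_zero, Nat.sub_zero, Finset.sum_range_one, one_mul] at h ⊢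
  rw [h]

/-- PROOF.  By induction it suffices to treat `j' = j + 1 ≤ i`: by `wt_split` with `q = 2`, `N = 2^(i-j-1)`:
`wt B (2^(i-j)) I = wt B N (2*I) + wt B N (2*I+1)`, `(u+v)^2 ≤ 2*(u^2+v^2)`, and
`∑ I ∈ range (2^(j+1)), f I = ∑ I ∈ range (2^j), (f (2*I) + f (2*I+1))` (induction). -/
theorem en_mono (B : Finset ℕ) (i j j' : ℕ) (hj : j ≤ j') (hi : j' ≤ i) : en B i j ≤ en B i j' := by
  have hsum : ∀ (f : ℕ → ℝ) (n : ℕ),
      ∑ I ∈ range (2 * n), f I = ∑ I ∈ range n, (f (2 * I) + f (2 * I + 1)) := by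
    intro f n
    induction n with
    | zero => simp
    | succ n ih =>
      rw [show 2 * (n + 1) = 2 * n + 1 + 1 by ring, Finset.sum_range_succ, Finset.sum_range_succ, ih,
        Finset.sum_range_succ]
      ring
  have hstep : ∀ k, k + 1 ≤ i → en B i k ≤ en B i (k + 1) := by
    intro k hk
    unfold en
    have hN : 2 ^ (i - k) = 2 * 2 ^ (i - (k + 1)) := by
      rw [← pow_succ']
      congr 1
      omega
    have hr : (2 : ℕ) ^ (k + 1) = 2 * 2 ^ k := by rw [pow_succ']
    rw [hN, hr, hsum]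
    have h2 : ((2 : ℝ) ^ (k + 1)) = 2 ^ k * 2 := pow_succ 2 k
    rw [h2, mul_assoc, Finset.mul_sum (range (2 ^ k)) _ (2 : ℝ)]
    apply mul_le_mul_of_nonneg_left _ (by positivity)
    apply Finset.sum_le_sum
    intro I _
    rw [wt_split B (2 ^ (i - (k + 1))) 2 I (by positivity) (by norm_num)]
    rw [Finset.sum_range_succ, Finset.sum_range_one, add_zero, mul_comm I 2]
    nlinarith [sq_nonneg (wt B (2 ^ (i - (k + 1))) (2 * I) - wt B (2 ^ (i - (k + 1))) (2 * I + 1))]
  induction j', hj using Nat.le_induction with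
  | base => exact le_rfl
  | succ k _ ih => exact (ih (by omega)).trans (hstep k hi)

/-- PROOF.  `wt ^ 2 ≤ d * wt`, `sum_wt`. -/
theorem en_le (B : Finset ℕ) (i r : ℕ) (d : ℝ) (hr : r ≤ i) (hB : ∀ x ∈ B, x < 2 ^ i)
    (hd : ∀ I, wt B (2 ^ (i - r)) I ≤ d) : en B i r ≤ 2 ^ r * (d * B.card) := by
  unfold en
  apply mul_le_mul_of_nonneg_left _ (by positivity)
  have h := sum_wt B (2 ^ (i - r)) (2 ^ r) fun x hx => by
    rw [Nat.div_lt_iff_lt_mul (by positivity), ← pow_add]
    have e : r + (i - r) = i := by omega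
    rw [e]
    exact hB x hx
  rw [← h, Finset.mul_sum]
  apply Finset.sum_le_sum
  intro I _
  rw [sq]
  exact mul_le_mul_of_nonneg_right (hd I) (by unfold wt; positivity)

end Pool.Agent.A18
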