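import Pool.Agent.W_MP_a18a27_h33.ParCorr
import Pool.Agent.W_MP_a18a27_h33.Energy

set_option autoImplicit false

namespace Pool.Agent.A18

open Finset

/-- A sum over `range (m * q)` in blocks of length `q`. -/
theorem CorrLevel_sum_range_mul (f : ℕ → ℝ) (m q : ℕ) :
    ∑ I ∈ range (m * q), f I = ∑ P ∈ range m, ∑ s ∈ range q, f (P * q + s) := by
  induction m with
  | zero => simp
  | succ m ih => rw [Nat.succ_mul, Finset.sum_range_add, ih, Finset.sum_range_succ]

theorem CorrLevel_wt_nonneg (B : Finset ℕ) (N I : ℕ) : 0 ≤ wt B N I := Nat.cast_nonneg _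

/-- PROOF.  Fiberwise over `I = z / N`: the fiber of the pairs with `z / N = I` is the product of `{x | x / N = I + k}` and
`{z | z / N = I}`. -/
theorem card_pairs (B : Finset ℕ) (N n k : ℕ) (hB : ∀ x ∈ B, x / N < n) :
    (((B ×ˢ B).filter (fun p => p.1 / N = p.2 / N + k)).card : ℝ)
      = ∑ I ∈ range n, wt B N I * wt B N (I + k) := by
  have hfib : ((B ×ˢ B).filter (fun p => p.1 / N = p.2 / N + k)).card =
      ∑ I ∈ range n, (B.filter (fun x => x / N = I)).card *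
        (B.filter (fun x => x / N = I + k)).card := by
    rw [Finset.card_eq_sum_card_fiberwise (f := fun p : ℕ × ℕ => p.2 / N) (t := range n)]
    · refine Finset.sum_congr rfl fun I _ => ?_
      rw [mul_comm, ← Finset.card_product]
      congr 1
      ext ⟨x, z⟩
      simp only [Finset.mem_filter, Finset.mem_product]
      constructor
      · rintro ⟨⟨⟨hx, hz⟩, h1⟩, h2⟩
        exact ⟨⟨hx, by rw [h1, h2]⟩, ⟨hz, h2⟩⟩
      · rintro ⟨⟨hx, h1⟩, ⟨hz, h2⟩⟩
        exact ⟨⟨⟨hx, hz⟩, by rw [h1, h2]⟩, h2⟩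
    · intro p hp
      have h1 := (Finset.mem_product.1 (Finset.mem_filter.1 (Finset.mem_coe.1 hp)).1).2
      exact Finset.mem_coe.2 (Finset.mem_range.2 (hB _ h1))
  rw [hfib]
  push_cast
  rfl

/-- If the energy does not increase much between the levels `R` and `j`, then the number of the pairs in `B` whose cells at the
level `j` have distance exactly `k` is at least half of the expected number.

PROOF.  Let `q = 2^(j-R)`, `N = 2^(i-j)`, so `q * N = 2^(i-R)` and `2^j = 2^R * q`.  By `card_pairs` with `n = 2^j` and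
`∑ I ∈ range (2^R * q), f I = ∑ P ∈ range (2^R), ∑ s ∈ range q, f (P * q + s)` (`Finset.sum_range` / `Nat.sum_range_mul..`,
induction on `2^R`), dropping nonnegative terms (`s ≥ q - k`), the number of pairs is at least
`∑ P, ∑ s ∈ range (q-k), w (P*q+s) * w (P*q+s+k)`, `w = wt B N`.  Apply `parent_corr` to `s ↦ w (P*q+s)` for every `P` and sum:
with `∑ s ∈ range q, w (P*q+s) = wt B (2^(i-R)) P` (`wt_split`), the sum over `P` of `(..)^2/q` is `en B i R / (2^R * q) = en B i R / 2^j`,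
and the sum of all `w^2` is `en B i j / 2^j`.  So `2^j * (number of pairs) ≥ (3/4) * en B i R - 17 * (en B i j - en B i R)
≥ (3/4) * |B|^2 - (17/68) * |B|^2 = |B|^2/2`, as `en B i R ≥ en B i 0 = |B|^2` (`en_mono`, `en_zero`). -/
theorem corr_level (B : Finset ℕ) (i R j k : ℕ) (hRj : R ≤ j) (hji : j ≤ i) (hB : ∀ x ∈ B, x < 2 ^ i)
    (hk : 8 * k ≤ 2 ^ (j - R)) (hinc : 68 * (en B i j - en B i R) ≤ (B.card : ℝ) ^ 2) :
    (B.card : ℝ) ^ 2 / 2 ≤
      2 ^ j * (((B ×ˢ B).filter (fun p => p.1 / 2 ^ (i - j) = p.2 / 2 ^ (i - j) + k)).card : ℝ) := by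
  have hN : 0 < 2 ^ (i - j) := by positivity
  have hq : 0 < 2 ^ (j - R) := by positivity
  have hqN : 2 ^ (j - R) * 2 ^ (i - j) = 2 ^ (i - R) := by
    rw [← pow_add]
    congr 1
    omega
  have hRq : 2 ^ R * 2 ^ (j - R) = 2 ^ j := by
    rw [← pow_add]
    congr 1
    omega
  have hBj : ∀ x ∈ B, x / 2 ^ (i - j) < 2 ^ j := by
    intro x hx
    refine Nat.div_lt_of_lt_mul ?_
    have h1 : 2 ^ (i - j) * 2 ^ j = 2 ^ i := by
      rw [← pow_add]
      congr 1
      omega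
    rw [h1]
    exact hB x hx
  set q : ℕ := 2 ^ (j - R) with hqdef
  set N : ℕ := 2 ^ (i - j) with hNdef
  rw [card_pairs B N (2 ^ j) k hBj]
  -- the sum over the pairs
  have hlow : ∑ P ∈ range (2 ^ R), ∑ s ∈ range (q - k), wt B N (P * q + s) * wt B N (P * q + (s + k))
      ≤ ∑ I ∈ range (2 ^ j), wt B N I * wt B N (I + k) := by
    rw [← hRq, CorrLevel_sum_range_mul]
    refine Finset.sum_le_sum fun P _ => ?_
    have h1 : ∑ s ∈ range (q - k), wt B N (P * q + s) * wt B N (P * q + (s + k)) =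
        ∑ s ∈ range (q - k), wt B N (P * q + s) * wt B N (P * q + s + k) := by
      refine Finset.sum_congr rfl fun s _ => ?_
      rw [add_assoc]
    rw [h1]
    refine Finset.sum_le_sum_of_subset_of_nonneg ?_ ?_
    · intro s hs
      rw [Finset.mem_range] at hs ⊢
      omega
    · intro s _ _
      exact mul_nonneg (CorrLevel_wt_nonneg _ _ _) (CorrLevel_wt_nonneg _ _ _)
  -- the energies
  have hej : en B i j = 2 ^ j * ∑ P ∈ range (2 ^ R), ∑ s ∈ range q, wt B N (P * q + s) ^ 2 := by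
    unfold en
    rw [← CorrLevel_sum_range_mul (fun I => wt B N I ^ 2), hRq]
  have heR : en B i R = 2 ^ R * ∑ P ∈ range (2 ^ R), (∑ s ∈ range q, wt B N (P * q + s)) ^ 2 := by
    unfold en
    congr 1
    refine Finset.sum_congr rfl fun P _ => ?_
    rw [← wt_split B N q P hN hq, hqN]
  have hsum : ∑ P ∈ range (2 ^ R), ((3 / 4) * ((∑ s ∈ range q, wt B N (P * q + s)) ^ 2 / q)
      - 17 * (∑ s ∈ range q, wt B N (P * q + s) ^ 2 -
        (∑ s ∈ range q, wt B N (P * q + s)) ^ 2 / q)) ≤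
      ∑ I ∈ range (2 ^ j), wt B N I * wt B N (I + k) :=
    (Finset.sum_le_sum fun P _ => parent_corr q k (fun s => wt B N (P * q + s)) hq hk).trans hlow
  rw [Finset.sum_sub_distrib, ← Finset.mul_sum, ← Finset.mul_sum, Finset.sum_sub_distrib,
    ← Finset.sum_div] at hsum
  set X : ℝ := ∑ P ∈ range (2 ^ R), (∑ s ∈ range q, wt B N (P * q + s)) ^ 2 with hX
  set Y : ℝ := ∑ P ∈ range (2 ^ R), ∑ s ∈ range q, wt B N (P * q + s) ^ 2 with hY
  set T : ℝ := ∑ I ∈ range (2 ^ j), wt B N I * wt B N (I + k) with hT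
  have hq' : (0 : ℝ) < q := by exact_mod_cast hq
  have hRq' : (2 : ℝ) ^ j = 2 ^ R * q := by
    have h5 : ((2 ^ R * q : ℕ) : ℝ) = ((2 ^ j : ℕ) : ℝ) := congrArg _ hRq
    have h6 : ((2 ^ R * q : ℕ) : ℝ) = (2 : ℝ) ^ R * (q : ℝ) := by
      rw [Nat.cast_mul, Nat.cast_pow, Nat.cast_ofNat]
    have h7 : ((2 ^ j : ℕ) : ℝ) = (2 : ℝ) ^ j := by
      rw [Nat.cast_pow, Nat.cast_ofNat]
    rw [← h6, ← h7, h5]
  have hXR : (2 : ℝ) ^ j * (X / q) = en B i R := by
    rw [heR, hRq']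
    field_simp
  have hD : (B.card : ℝ) ^ 2 ≤ en B i R := by
    rw [← en_zero B i hB]
    exact en_mono B i 0 R (Nat.zero_le _) (hRj.trans hji)
  have h2j : (0 : ℝ) < 2 ^ j := by positivity
  have hfin := mul_le_mul_of_nonneg_left hsum h2j.le
  have hexp : (2 : ℝ) ^ j * (3 / 4 * (X / q) - 17 * (Y - X / q)) =
      3 / 4 * en B i R - 17 * (en B i j - en B i R) := by
    rw [hej, ← hXR]
    ring
  rw [hexp] at hfin
  linarith

/-- The number of triples at one scale.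

PROOF.  Fiberwise over `b ∈ S` (fiber: the pairs of `corr_level` with `k = b / 2^(i-j)`); `b < 2^(i-R-3)` gives
`b / 2^(i-j) < 2^(j-R-3)` (`Nat.div_lt_of_lt_mul`, `2^(i-j) * 2^(j-R-3) = 2^(i-R-3)`), so `8 * k ≤ 2^(j-R)`. -/
theorem scale_lower (B S : Finset ℕ) (i R j : ℕ) (hRj : R + 3 ≤ j) (hji : j ≤ i)
    (hB : ∀ x ∈ B, x < 2 ^ i) (hinc : 68 * (en B i j - en B i R) ≤ (B.card : ℝ) ^ 2)
    (hS : ∀ b ∈ S, b < 2 ^ (i - R - 3)) :
    (S.card : ℝ) * ((B.card : ℝ) ^ 2 / 2) ≤ 2 ^ j * (((B ×ˢ B ×ˢ S).filter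
      (fun t => t.1 / 2 ^ (i - j) = t.2.1 / 2 ^ (i - j) + t.2.2 / 2 ^ (i - j))).card : ℝ) := by
  set N : ℕ := 2 ^ (i - j) with hNdef
  have hpair : ∀ b ∈ S, (B.card : ℝ) ^ 2 / 2 ≤
      2 ^ j * (((B ×ˢ B).filter (fun p => p.1 / N = p.2 / N + b / N)).card : ℝ) := by
    intro b hb
    refine corr_level B i R j (b / N) (by omega) hji hB ?_ hinc
    have h1 : b / N < 2 ^ (j - R - 3) := by
      refine Nat.div_lt_of_lt_mul ?_
      have h2 : N * 2 ^ (j - R - 3) = 2 ^ (i - R - 3) := by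
        rw [hNdef, ← pow_add]
        congr 1
        omega
      rw [h2]
      exact hS b hb
    have h3 : 2 ^ (j - R) = 8 * 2 ^ (j - R - 3) := by
      have h4 : j - R = (j - R - 3) + 3 := by omega
      conv_lhs => rw [h4, pow_add]
      ring
    omega
  have hcard : ∑ b ∈ S, ((B ×ˢ B).filter (fun p => p.1 / N = p.2 / N + b / N)).card ≤
      ((B ×ˢ B ×ˢ S).filter (fun t => t.1 / N = t.2.1 / N + t.2.2 / N)).card := by
    rw [Finset.card_eq_sum_card_fiberwise (s := (B ×ˢ B ×ˢ S).filter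
      (fun t => t.1 / N = t.2.1 / N + t.2.2 / N)) (f := fun t : ℕ × ℕ × ℕ => t.2.2) (t := S)]
    · refine Finset.sum_le_sum fun b hb => ?_
      refine Finset.card_le_card_of_injOn (fun p : ℕ × ℕ => (p.1, p.2, b)) ?_ ?_
      · intro p hp
        have h1 := Finset.mem_filter.1 (Finset.mem_coe.1 hp)
        have h2 := Finset.mem_product.1 h1.1
        refine Finset.mem_coe.2 (Finset.mem_filter.2 ⟨Finset.mem_filter.2 ⟨?_, h1.2⟩, rfl⟩)
        exact Finset.mem_product.2 ⟨h2.1, Finset.mem_product.2 ⟨h2.2, hb⟩⟩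
      · intro p _ p' _ h
        simp only [Prod.mk.injEq] at h
        exact Prod.ext h.1 h.2.1
    · intro t ht
      have h1 := (Finset.mem_filter.1 (Finset.mem_coe.1 ht)).1
      exact Finset.mem_coe.2 (Finset.mem_product.1 (Finset.mem_product.1 h1).2).2
  have hcard' : ∑ b ∈ S, (((B ×ˢ B).filter (fun p => p.1 / N = p.2 / N + b / N)).card : ℝ) ≤
      (((B ×ˢ B ×ˢ S).filter (fun t => t.1 / N = t.2.1 / N + t.2.2 / N)).card : ℝ) := by
    exact_mod_cast hcard
  calc (S.card : ℝ) * ((B.card : ℝ) ^ 2 / 2) = ∑ b ∈ S, ((B.card : ℝ) ^ 2 / 2) := by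
        rw [Finset.sum_const, nsmul_eq_mul]
    _ ≤ ∑ b ∈ S, 2 ^ j * (((B ×ˢ B).filter (fun p => p.1 / N = p.2 / N + b / N)).card : ℝ) :=
        Finset.sum_le_sum hpair
    _ = 2 ^ j * ∑ b ∈ S, (((B ×ˢ B).filter (fun p => p.1 / N = p.2 / N + b / N)).card : ℝ) := by
        rw [Finset.mul_sum]
    _ ≤ _ := mul_le_mul_of_nonneg_left hcard' (by positivity)

end Pool.Agent.A18
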