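import Mathlib

/-!
# MP_a18a27_co : singular scales of dense B_3 sequences, definitions

`A` is the set of the nonnegative terms of a `B_3` sequence.  The scale `i` is the interval `[0, 2^i)`; for `r ≤ i` it is
divided into the `2^r` cells `[s * 2^(i-r), (s+1) * 2^(i-r))`.
-/

set_option autoImplicit false

namespace Pool.Agent.A18

open Finset

open scoped Classical in
/-- The elements of `A` below `m`. -/
noncomputable def els (A : Set ℕ) (m : ℕ) : Finset ℕ := (range m).filter (fun x => x ∈ A)

theorem mem_els {A : Set ℕ} {m x : ℕ} : x ∈ els A m ↔ x < m ∧ x ∈ A := by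
  simp [els]

/-- The cube root of two. -/
noncomputable def th : ℝ := (2 : ℝ) ^ ((1 : ℝ) / 3)

theorem th_pow : th ^ 3 = 2 := by
  unfold th
  rw [← Real.rpow_natCast, ← Real.rpow_mul (by norm_num)]
  norm_num

theorem one_lt_th : 1 < th := by
  unfold th
  exact Real.one_lt_rpow (by norm_num) (by norm_num)

/-- The form of the `B_3` property which is used: the number `x - z - b` determines `b < z < x`. -/
def U3 (A : Set ℕ) : Prop := ∀ x ∈ A, ∀ z ∈ A, ∀ b ∈ A, ∀ x' ∈ A, ∀ z' ∈ A, ∀ b' ∈ A,
  b < z → z < x → b' < z' → z' < x' → x + z' + b' = x' + z + b → x = x' ∧ z = z' ∧ b = b'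

/-- The number of the elements of `B` in the `I`-th interval of length `N`. -/
noncomputable def wt (B : Finset ℕ) (N I : ℕ) : ℝ := ((B.filter (fun x => x / N = I)).card : ℝ)

/-- The energy of `B ⊆ [0, 2^i)` at the level `j`, that is, with respect to the `2^j` cells of length `2^(i-j)`. -/
noncomputable def en (B : Finset ℕ) (i j : ℕ) : ℝ :=
  2 ^ j * ∑ I ∈ range (2 ^ j), wt B (2 ^ (i - j)) I ^ 2

/-- The scale `i` is singular: at most `ε * 2^r` of the `2^r` cells contain all but at most `ε * 2^(i/3)` of the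
elements of `A` below `2^i`. -/
def Sing (A : Set ℕ) (ε : ℝ) (r i : ℕ) : Prop :=
  ∃ S : Finset ℕ, (S.card : ℝ) ≤ ε * 2 ^ r ∧
    (((els A (2 ^ i)).filter (fun x => x / 2 ^ (i - r) ∉ S)).card : ℝ) ≤ ε * th ^ i

end Pool.Agent.A18
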