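import Pool.Agent.W_MP_a18a27_h33.Seq

set_option autoImplicit false

namespace Pool.Agent.A18

open Finset

/-- iterated gaps -/
theorem gap_iter {a : ℕ → ℤ} (δ : ℝ) (k N m : ℕ) (hδ : 0 < δ) (hN : N ≤ m)
    (hgap : ∀ n, N ≤ n → δ * ((n : ℝ) + 1) ^ 2 < (a (n + k) : ℝ) - a n) (n : ℕ) (hn : m ≤ n)
    (q : ℕ) : (q : ℝ) * (δ * ((m : ℝ) + 1) ^ 2) ≤ (a (n + q * k) : ℝ) - a n := by
  induction q with
  | zero => simp
  | succ q ih =>
    have h1 := hgap (n + q * k) (by omega)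
    have h2 : n + (q + 1) * k = n + q * k + k := by ring
    have h3 : (m : ℝ) ≤ ((n + q * k : ℕ) : ℝ) := by
      exact_mod_cast (show m ≤ n + q * k by omega)
    have h4 : ((m : ℝ) + 1) ^ 2 ≤ (((n + q * k : ℕ) : ℝ) + 1) ^ 2 := by
      apply pow_le_pow_left₀ (by positivity)
      linarith
    have h5 : δ * ((m : ℝ) + 1) ^ 2 ≤ δ * (((n + q * k : ℕ) : ℝ) + 1) ^ 2 :=
      mul_le_mul_of_nonneg_left h4 hδ.le
    rw [h2]
    push_cast at *
    linarith

/-- the number of the indices `≥ m` of terms in a short interval -/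
theorem card_idx_le {a : ℕ → ℤ} (hm : StrictMono a) (δ : ℝ) (k N m L : ℕ) (hk : 0 < k)
    (hδ : 0 < δ) (hN : N ≤ m)
    (hgap : ∀ n, N ≤ n → δ * ((n : ℝ) + 1) ^ 2 < (a (n + k) : ℝ) - a n)
    (J : Finset ℕ) (hJ : ∀ n ∈ J, m ≤ n) (hL : ∀ n ∈ J, ∀ n' ∈ J, a n' - a n < (L : ℤ)) :
    (J.card : ℝ) ≤ k * ((L : ℝ) / (δ * ((m : ℝ) + 1) ^ 2) + 1) := by
  have hD : 0 < δ * ((m : ℝ) + 1) ^ 2 := by positivity
  rcases J.eq_empty_or_nonempty with hem | hne
  · rw [hem]
    simp only [Finset.card_empty, Nat.cast_zero]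
    positivity
  · have h1 := J.min'_mem hne
    have h2 := J.max'_mem hne
    have hsub : J ⊆ Finset.Icc (J.min' hne) (J.max' hne) := fun x hx =>
      Finset.mem_Icc.2 ⟨J.min'_le x hx, J.le_max' x hx⟩
    have hc := Finset.card_le_card hsub
    rw [Nat.card_Icc] at hc
    have hpos : 0 < J.card := Finset.card_pos.2 hne
    obtain ⟨t, ht⟩ : ∃ t, t = J.card - 1 := ⟨_, rfl⟩
    have ht1 : J.min' hne + t ≤ J.max' hne := by omega
    have hqk : t / k * k ≤ t := Nat.div_mul_le_self t k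
    have hmono : a (J.min' hne + t / k * k) ≤ a (J.max' hne) := hm.monotone (by omega)
    have hit := gap_iter δ k N m hδ hN hgap (J.min' hne) (hJ _ h1) (t / k)
    have hlt := hL _ h1 _ h2
    have hlt' : ((a (J.max' hne) : ℤ) : ℝ) - a (J.min' hne) < (L : ℝ) := by exact_mod_cast hlt
    have hmono' : ((a (J.min' hne + t / k * k) : ℤ) : ℝ) ≤ a (J.max' hne) := by
      exact_mod_cast hmono
    have hq : ((t / k : ℕ) : ℝ) ≤ (L : ℝ) / (δ * ((m : ℝ) + 1) ^ 2) := by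
      rw [le_div_iff₀ hD]
      linarith
    have hcard : J.card ≤ k * (t / k + 1) := by
      have h3 := Nat.lt_mul_div_succ t hk
      omega
    have hcard' : (J.card : ℝ) ≤ k * (((t / k : ℕ) : ℝ) + 1) := by exact_mod_cast hcard
    refine hcard'.trans (mul_le_mul_of_nonneg_left ?_ (Nat.cast_nonneg k))
    linarith

/-- A sequence with large gaps has only few terms in few cells.

PROOF.  Assume `Sing (ran a) ε r i` with the set `S` of cells, and `r ≤ i`.  Let `m` be a natural number, `N ≤ m`.  The elements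
`a n`, `n ≥ m`, of one cell `[s * 2^(i-r), (s+1) * 2^(i-r))` have consecutive indices `n_0, n_0 + 1, ..., n_0 + t - 1`, `n_0 ≥ m ≥ N`,
and `2^(i-r) > a (n_0 + t - 1) - a n_0 ≥ ⌊(t-1)/k⌋ * δ * (m+1)^2`, so `t ≤ k * (2^(i-r)/(δ*(m+1)^2) + 1)`.  Hence the number of elements of
`els (ran a) (2^i)` is at most `m` (those of index `< m`) `+ ε * th^i` (outside of the cells of `S`)
`+ ε * 2^r * k * (2^(i-r) / (δ * (m+1)^2) + 1)`. -/
theorem card_le_of_sing {a : ℕ → ℤ} (hm : StrictMono a) (ε δ : ℝ) (r i k N m : ℕ) (hk : 0 < k)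
    (hδ : 0 < δ) (hε : 0 < ε) (hr : r ≤ i) (hN : N ≤ m)
    (hgap : ∀ n, N ≤ n → δ * ((n : ℝ) + 1) ^ 2 < (a (n + k) : ℝ) - a n)
    (hs : Sing (ran a) ε r i) :
    ((els (ran a) (2 ^ i)).card : ℝ) ≤ m + ε * th ^ i +
      ε * 2 ^ r * (k * (2 ^ (i - r) / (δ * ((m : ℝ) + 1) ^ 2) + 1)) := by
  classical
  obtain ⟨S, hS1, hS2⟩ := hs
  have hex : ∃ idx : ℕ → ℕ, ∀ x ∈ ran a, a (idx x) = (x : ℤ) := by
    refine ⟨fun x => if h : ∃ n, a n = (x : ℤ) then h.choose else 0, fun x hx => ?_⟩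
    have hx' : ∃ n, a n = (x : ℤ) := hx
    simp only [dif_pos hx']
    exact hx'.choose_spec
  obtain ⟨idx, hidx⟩ := hex
  have hinj : ∀ x ∈ ran a, ∀ y ∈ ran a, idx x = idx y → x = y := by
    intro x hx y hy h
    have h1 := hidx x hx
    rw [h, hidx y hy] at h1
    exact_mod_cast h1.symm
  obtain ⟨E, hE⟩ : ∃ E, E = els (ran a) (2 ^ i) := ⟨_, rfl⟩
  have hEr : ∀ x ∈ E, x ∈ ran a := fun x hx => by
    rw [hE] at hx
    exact (mem_els.1 hx).2
  rw [← hE] at hS2 ⊢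
  obtain ⟨T, hT⟩ : ∃ T : ℕ → Finset ℕ, T = fun s => E.filter (fun x => x / 2 ^ (i - r) = s ∧ m ≤ idx x) :=
    ⟨_, rfl⟩
  have hsub : E ⊆ E.filter (fun x => idx x < m) ∪ E.filter (fun x => x / 2 ^ (i - r) ∉ S) ∪
      S.biUnion T := by
    intro x hx
    simp only [Finset.mem_union, Finset.mem_filter, Finset.mem_biUnion, hT]
    by_cases h1 : idx x < m
    · exact Or.inl (Or.inl ⟨hx, h1⟩)
    · by_cases h2 : x / 2 ^ (i - r) ∈ S
      · exact Or.inr ⟨_, h2, hx, rfl, not_lt.1 h1⟩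
      · exact Or.inl (Or.inr ⟨hx, h2⟩)
  have hc1 : (E.filter (fun x => idx x < m)).card ≤ m := by
    have h := Finset.card_le_card_of_injOn (s := E.filter (fun x => idx x < m))
      (t := Finset.range m) idx
      (fun x hx => Finset.mem_coe.2 (Finset.mem_range.2 (Finset.mem_filter.1 (Finset.mem_coe.1 hx)).2))
      (fun x hx y hy hxy => hinj x (hEr x (Finset.mem_filter.1 (Finset.mem_coe.1 hx)).1) y
        (hEr y (Finset.mem_filter.1 (Finset.mem_coe.1 hy)).1) hxy)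
    rwa [Finset.card_range] at h
  have hcell : ∀ s, ((T s).card : ℝ) ≤ k * (2 ^ (i - r) / (δ * ((m : ℝ) + 1) ^ 2) + 1) := by
    intro s
    have h1 : ((T s).image idx).card = (T s).card := by
      apply Finset.card_image_of_injOn
      intro x hx y hy hxy
      rw [hT] at hx hy
      exact hinj x (hEr x (Finset.mem_filter.1 (Finset.mem_coe.1 hx)).1) y
        (hEr y (Finset.mem_filter.1 (Finset.mem_coe.1 hy)).1) hxy
    rw [← h1]
    have h2 := card_idx_le hm δ k N m (2 ^ (i - r)) hk hδ hN hgap ((T s).image idx) ?_ ?_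
    · have h3 : ((2 ^ (i - r) : ℕ) : ℝ) = 2 ^ (i - r) := by push_cast; ring
      rwa [h3] at h2
    · intro n hn
      obtain ⟨x, hx, rfl⟩ := Finset.mem_image.1 hn
      rw [hT] at hx
      exact (Finset.mem_filter.1 hx).2.2
    · intro n hn n' hn'
      obtain ⟨x, hx, rfl⟩ := Finset.mem_image.1 hn
      obtain ⟨y, hy, rfl⟩ := Finset.mem_image.1 hn'
      rw [hT] at hx hy
      obtain ⟨hx1, hx2, hx3⟩ := Finset.mem_filter.1 hx
      obtain ⟨hy1, hy2, hy3⟩ := Finset.mem_filter.1 hy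
      rw [hidx x (hEr x hx1), hidx y (hEr y hy1)]
      have hpos : 0 < 2 ^ (i - r) := by positivity
      have e1 := Nat.div_add_mod x (2 ^ (i - r))
      have e2 := Nat.div_add_mod y (2 ^ (i - r))
      have e3 := Nat.mod_lt x hpos
      have e4 := Nat.mod_lt y hpos
      rw [hx2] at e1
      rw [hy2] at e2
      have e5 : y < x + 2 ^ (i - r) := by omega
      have e6 : (y : ℤ) < (x : ℤ) + ((2 ^ (i - r) : ℕ) : ℤ) := by exact_mod_cast e5
      linarith
  have hbU : ((S.biUnion T).card : ℝ) ≤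
      ε * 2 ^ r * (k * (2 ^ (i - r) / (δ * ((m : ℝ) + 1) ^ 2) + 1)) := by
    have h1 : ((S.biUnion T).card : ℝ) ≤ ∑ s ∈ S, ((T s).card : ℝ) := by
      exact_mod_cast Finset.card_biUnion_le
    have h2 : ∑ s ∈ S, ((T s).card : ℝ) ≤
        ∑ s ∈ S, (k * (2 ^ (i - r) / (δ * ((m : ℝ) + 1) ^ 2) + 1) : ℝ) :=
      Finset.sum_le_sum fun s _ => hcell s
    rw [Finset.sum_const, nsmul_eq_mul] at h2
    refine (h1.trans h2).trans (mul_le_mul_of_nonneg_right hS1 ?_)
    positivity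
  have hc := Finset.card_le_card hsub
  have hu1 := Finset.card_union_le (E.filter (fun x => idx x < m) ∪
    E.filter (fun x => x / 2 ^ (i - r) ∉ S)) (S.biUnion T)
  have hu2 := Finset.card_union_le (E.filter (fun x => idx x < m))
    (E.filter (fun x => x / 2 ^ (i - r) ∉ S))
  have hfin : E.card ≤ m + (E.filter (fun x => x / 2 ^ (i - r) ∉ S)).card +
      (S.biUnion T).card := by omega
  have hfin' : (E.card : ℝ) ≤ m + ((E.filter (fun x => x / 2 ^ (i - r) ∉ S)).card : ℝ) +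
      ((S.biUnion T).card : ℝ) := by exact_mod_cast hfin
  linarith

end Pool.Agent.A18
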