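import Pool.Agent.W_MP_a18a27_h33.Seq

set_option autoImplicit false

namespace Pool.Agent.A18

open Finset

/-- The lower bound for the number of elements.

PROOF.  Let `p` be the number of the indices with `a n < 0` (`p` such that `0 ≤ a p`; e.g. `p = (1 - a 0).toNat`, as `a n ≥ a 0 + n`).
If `N0 ≤ n`, `p ≤ n` and `C * (n+1)^3 < 2^i` then `a n < 2^i` and `a n ∈ els`.  Let `C ≥ 1` without loss of generality (replace it by
`max C 1`), `n_i := ⌊th^i / C⌋₊`: for `n < n_i`, `C * (n+1)^3 ≤ C * n_i^3 ≤ th^(3*i)/C^2 ≤ 2^i`; use `n + 1 < n_i` for a strict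
inequality.  So there are at least `n_i - 1 - max N0 p ≥ th^i / C - 2 - max N0 p ≥ th^i/(2*C)` elements, if `i` is large
(`th^i → ∞`).  Take `c = 1/(2*C)`. -/
theorem exists_card_els_ge {a : ℕ → ℤ} (hm : StrictMono a) (C : ℝ) (N0 : ℕ)
    (hC : ∀ n, N0 ≤ n → (a n : ℝ) ≤ C * ((n : ℝ) + 1) ^ 3) :
    ∃ c : ℝ, 0 < c ∧ ∃ i0 : ℕ, ∀ i, i0 ≤ i → c * th ^ i ≤ ((els (ran a) (2 ^ i)).card : ℝ) := by
  obtain ⟨K, hK1, hCK⟩ : ∃ K : ℝ, 1 ≤ K ∧ C ≤ K := ⟨max C 1, le_max_right _ _, le_max_left _ _⟩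
  have hK0 : 0 < K := by linarith
  have hlow : ∀ n : ℕ, a 0 + n ≤ a n := by
    intro n
    induction n with
    | zero => simp
    | succ n ih =>
      have h2 : a n < a (n + 1) := hm (Nat.lt_succ_self n)
      push_cast
      omega
  obtain ⟨p, hp⟩ : ∃ p : ℕ, -a 0 ≤ p := ⟨(-a 0).toNat, Int.self_le_toNat _⟩
  have hpos : ∀ n, p ≤ n → 0 ≤ a n := by
    intro n hn
    have := hlow n
    omega
  obtain ⟨M, hM1, hM2⟩ : ∃ M : ℕ, N0 ≤ M ∧ p ≤ M := ⟨max N0 p, le_max_left _ _, le_max_right _ _⟩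
  obtain ⟨i0, hi0⟩ := pow_unbounded_of_one_lt (2 * K * ((M : ℝ) + 2)) one_lt_th
  refine ⟨1 / (2 * K), by positivity, i0, fun i hi => ?_⟩
  have hth : 2 * K * ((M : ℝ) + 2) ≤ th ^ i := hi0.le.trans (pow_le_pow_right₀ one_lt_th.le hi)
  have hth0 : 0 < th ^ i := pow_pos (lt_trans one_pos one_lt_th) i
  obtain ⟨ni, hni⟩ : ∃ ni, ni = ⌊th ^ i / K⌋₊ := ⟨_, rfl⟩
  have hfl : (ni : ℝ) ≤ th ^ i / K := by
    rw [hni]
    exact Nat.floor_le (by positivity)
  have hfl2 : th ^ i / K < ni + 1 := by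
    rw [hni]
    exact Nat.lt_floor_add_one _
  have hmem : ∀ n ∈ Finset.Ico M (ni - 1), (a n).toNat ∈ els (ran a) (2 ^ i) := by
    intro n hn
    rw [Finset.mem_Ico] at hn
    have h0 : 0 ≤ a n := hpos n (hM2.trans hn.1)
    have hN : N0 ≤ n := hM1.trans hn.1
    rw [mem_els]
    refine ⟨?_, n, (Int.toNat_of_nonneg h0).symm⟩
    have h1 : ((n : ℝ) + 1) < ni := by
      have h : n + 1 < ni := by omega
      exact_mod_cast h
    have h2 : (a n : ℝ) ≤ K * ((n : ℝ) + 1) ^ 3 :=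
      (hC n hN).trans (mul_le_mul_of_nonneg_right hCK (by positivity))
    have h3 : K * ((n : ℝ) + 1) ^ 3 < K * (th ^ i / K) ^ 3 :=
      mul_lt_mul_of_pos_left (pow_lt_pow_left₀ (h1.trans_le hfl) (by positivity) (by norm_num)) hK0
    have h4 : K * (th ^ i / K) ^ 3 ≤ 2 ^ i := by
      have e : (th ^ i) ^ 3 = 2 ^ i := by rw [← pow_mul, mul_comm, pow_mul, th_pow]
      rw [div_pow, e, mul_div_assoc', div_le_iff₀ (by positivity), mul_comm]
      exact mul_le_mul_of_nonneg_left (le_self_pow₀ hK1 (by norm_num)) (by positivity)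
    have h5 : (a n : ℝ) < 2 ^ i := by linarith
    have h6 : a n < 2 ^ i := by exact_mod_cast h5
    have h7 : ((a n).toNat : ℤ) < ((2 ^ i : ℕ) : ℤ) := by
      rw [Int.toNat_of_nonneg h0]
      push_cast
      exact h6
    exact_mod_cast h7
  have hinj : Set.InjOn (fun n => (a n).toNat) (Finset.Ico M (ni - 1) : Set ℕ) := by
    intro n hn m hmm hnm
    have hn1 := (Finset.mem_Ico.1 hn).1
    have hm1 := (Finset.mem_Ico.1 hmm).1
    have h0 : 0 ≤ a n := hpos n (hM2.trans hn1)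
    have h1 : 0 ≤ a m := hpos m (hM2.trans hm1)
    refine hm.injective ?_
    rw [← Int.toNat_of_nonneg h0, ← Int.toNat_of_nonneg h1]
    exact congrArg (fun k : ℕ => (k : ℤ)) hnm
  have hcard : (Finset.Ico M (ni - 1)).card ≤ (els (ran a) (2 ^ i)).card :=
    Finset.card_le_card_of_injOn _ hmem hinj
  rw [Nat.card_Ico] at hcard
  have h7 : ((ni - 1 - M : ℕ) : ℝ) ≤ ((els (ran a) (2 ^ i)).card : ℝ) := by exact_mod_cast hcard
  have h8 : (ni : ℝ) ≤ ((ni - 1 - M : ℕ) : ℝ) + 1 + M := by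
    have h : ni ≤ (ni - 1 - M) + 1 + M := by omega
    exact_mod_cast h
  have h9 : 1 / (2 * K) * th ^ i = th ^ i / K / 2 := by field_simp
  have h10 : 2 * ((M : ℝ) + 2) ≤ th ^ i / K := by
    rw [le_div_iff₀ hK0]
    linarith
  rw [h9]
  linarith

end Pool.Agent.A18
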