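import Pool.Agent.W_MP_a18a27_h33.Seq

set_option autoImplicit false

namespace Pool.Agent.A18

open Finset

theorem sequp_sorted (T : Finset ℕ) (h : T.card = 3) : ∃ x y z, x < y ∧ y < z ∧ T = {x, y, z} := by
  have h1 := Finset.image_orderEmbOfFin_univ T h
  refine ⟨T.orderEmbOfFin h 0, T.orderEmbOfFin h 1, T.orderEmbOfFin h 2,
    (T.orderEmbOfFin h).strictMono (by decide), (T.orderEmbOfFin h).strictMono (by decide), ?_⟩
  conv_lhs => rw [← h1]
  ext w
  simp only [mem_image, mem_univ, true_and, mem_insert, mem_singleton]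
  constructor
  · rintro ⟨k, rfl⟩
    fin_cases k
    · exact Or.inl rfl
    · exact Or.inr (Or.inl rfl)
    · exact Or.inr (Or.inr rfl)
  · rintro (rfl | rfl | rfl)
    · exact ⟨_, rfl⟩
    · exact ⟨_, rfl⟩
    · exact ⟨_, rfl⟩

theorem sequp_data {a : ℕ → ℤ} (hm : StrictMono a) {m : ℕ} {T : Finset ℕ}
    (hT : T ⊆ els (ran a) m) (h : T.card = 3) :
    ∃ x y z i j l : ℕ, T = {x, y, z} ∧ x < m ∧ y < m ∧ z < m ∧ i ≤ j ∧ j ≤ l ∧
      a i = x ∧ a j = y ∧ a l = z ∧ ∑ t ∈ T, t = x + y + z := by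
  obtain ⟨x, y, z, hxy, hyz, rfl⟩ := sequp_sorted T h
  have hx := mem_els.1 (hT (by simp : x ∈ ({x, y, z} : Finset ℕ)))
  have hy := mem_els.1 (hT (by simp : y ∈ ({x, y, z} : Finset ℕ)))
  have hz := mem_els.1 (hT (by simp : z ∈ ({x, y, z} : Finset ℕ)))
  obtain ⟨i, hi⟩ := hx.2
  obtain ⟨j, hj⟩ := hy.2
  obtain ⟨l, hl⟩ := hz.2
  refine ⟨x, y, z, i, j, l, rfl, hx.1, hy.1, hz.1, ?_, ?_, hi, hj, hl, ?_⟩
  · apply le_of_lt
    rw [← hm.lt_iff_lt, hi, hj]
    exact_mod_cast hxy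
  · apply le_of_lt
    rw [← hm.lt_iff_lt, hj, hl]
    exact_mod_cast hyz
  · rw [Finset.sum_insert (by simp; omega), Finset.sum_insert (by simp; omega),
      Finset.sum_singleton]
    ring

/-- The counting bound.

PROOF.  Let `m` be the number of elements and `s : Fin m → ℕ` (or a finset of indices) the corresponding indices.  If `m ≤ 2` the
bound holds as `th ≥ 1`.  The `m.choose 3` three-element subsets of `els (ran a) (2^i)` have different sums (`IsB3`), which are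
`< 3 * 2^i`.  So `m.choose 3 ≤ 3 * 2^i`, i.e. `(m-2)^3 ≤ m*(m-1)*(m-2) ≤ 18 * 2^i = 18 * (th^i)^3 ≤ (3 * th^i)^3`, so
`m ≤ 3 * th^i + 2 ≤ 5 * th^i`. -/
theorem card_els_le {a : ℕ → ℤ} (hm : StrictMono a) (h : IsB3 a) (i : ℕ) :
    ((els (ran a) (2 ^ i)).card : ℝ) ≤ 5 * th ^ i := by
  set E := els (ran a) (2 ^ i) with hE
  have hcard : (E.card).choose 3 ≤ 3 * 2 ^ i := by
    rw [← Finset.card_powersetCard, ← Finset.card_range (3 * 2 ^ i)]
    apply Finset.card_le_card_of_injOn (fun T => ∑ t ∈ T, t)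
    · intro T hT
      have hT' := Finset.mem_powersetCard.1 hT
      obtain ⟨x, y, z, p, q, r, -, hx, hy, hz, -, -, -, -, -, hs⟩ := sequp_data hm hT'.1 hT'.2
      simp only [coe_range, Set.mem_Iio]
      rw [hs]
      omega
    · intro T hT T' hT' he
      have hT1 := Finset.mem_powersetCard.1 hT
      have hT2 := Finset.mem_powersetCard.1 hT'
      obtain ⟨x, y, z, p, q, r, e1, -, -, -, o1, o2, hx, hy, hz, hs⟩ := sequp_data hm hT1.1 hT1.2
      obtain ⟨x', y', z', p', q', r', e2, -, -, -, o1', o2', hx', hy', hz', hs'⟩ :=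
        sequp_data hm hT2.1 hT2.2
      simp only at he
      rw [hs, hs'] at he
      have hsum : a p + a q + a r = a p' + a q' + a r' := by
        rw [hx, hy, hz, hx', hy', hz']
        exact_mod_cast he
      obtain ⟨rfl, rfl, rfl⟩ := h p q r p' q' r' o1 o2 o1' o2' hsum
      rw [hx] at hx'
      rw [hy] at hy'
      rw [hz] at hz'
      have a1 : x = x' := by exact_mod_cast hx'
      have a2 : y = y' := by exact_mod_cast hy'
      have a3 : z = z' := by exact_mod_cast hz'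
      rw [e1, e2, a1, a2, a3]
  have h1 : (E.card + 1 - 3) ^ 3 ≤ 6 * (E.card).choose 3 := by
    have h2 := Nat.pow_sub_le_descFactorial E.card 3
    rw [Nat.descFactorial_eq_factorial_mul_choose] at h2
    exact h2
  have h3 : (E.card - 2) ^ 3 ≤ 18 * 2 ^ i := by
    have : E.card + 1 - 3 = E.card - 2 := by omega
    rw [this] at h1
    omega
  have hth : (1 : ℝ) ≤ th ^ i := one_le_pow₀ one_lt_th.le
  have h4 : (((E.card - 2 : ℕ) : ℝ)) ^ 3 ≤ (3 * th ^ i) ^ 3 := by
    have h5 : (((E.card - 2 : ℕ) : ℝ)) ^ 3 ≤ 18 * 2 ^ i := by exact_mod_cast h3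
    have h6 : (3 * th ^ i) ^ 3 = 27 * 2 ^ i := by
      rw [mul_pow, ← pow_mul, mul_comm i 3, pow_mul, th_pow]
      norm_num
    rw [h6]
    have h7 : (0 : ℝ) < 2 ^ i := by positivity
    linarith
  have h8 : ((E.card - 2 : ℕ) : ℝ) ≤ 3 * th ^ i :=
    le_of_pow_le_pow_left₀ (by norm_num) (by positivity) h4
  have h9 : (E.card : ℝ) ≤ ((E.card - 2 : ℕ) : ℝ) + 2 := by
    have : E.card ≤ (E.card - 2) + 2 := by omega
    exact_mod_cast this
  linarith

end Pool.Agent.A18
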