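import Pool.Agent.W_MP_a18a27_h33.Main
import Pool.Agent.W_MP_a18a27_h33.SeqUp
import Pool.Agent.W_MP_a18a27_h33.SeqLo
import Pool.Agent.W_MP_a18a27_h33.Gap

set_option autoImplicit false

namespace Pool.Agent.A18

open Finset

theorem th_pow_eq (i : ℕ) : th ^ i = (2 : ℝ) ^ ((i : ℝ) / 3) := by
  unfold th
  rw [← Real.rpow_natCast, ← Real.rpow_mul (by norm_num)]
  congr 1
  ring

theorem main_sing {a : ℕ → ℤ} (hm : StrictMono a) (h : IsB3 a) (C : ℝ) (N0 : ℕ)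
    (hC : ∀ n, N0 ≤ n → (a n : ℝ) ≤ C * ((n : ℝ) + 1) ^ 3) (ε : ℝ) (hε : 0 < ε) :
    ∃ r J0 : ℕ, ∀ J, J0 ≤ J → ∀ T : Finset ℕ, (∀ i ∈ T, i < J ∧ (i < r ∨ ¬ Sing (ran a) ε r i)) →
      (T.card : ℝ) ≤ ε * J := by
  obtain ⟨c, hc, i0, hlo⟩ := exists_card_els_ge hm C N0 hC
  exact few_nonsing (ran a) (u3_ran hm h) c 5 hc (by norm_num) i0 hlo (card_els_le hm h) ε hε

theorem gap_alt {a : ℕ → ℤ} (hm : StrictMono a) (h : IsB3 a) (k : ℕ) (hk : 0 < k) :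
    (∀ C : ℝ, ∀ N : ℕ, ∃ n : ℕ, N ≤ n ∧ C * ((n : ℝ) + 1) ^ 3 < (a n : ℝ)) ∨
    (∀ δ : ℝ, 0 < δ → ∀ N : ℕ, ∃ n : ℕ, N ≤ n ∧ (a (n + k) : ℝ) - a n ≤ δ * ((n : ℝ) + 1) ^ 2) := by
  classical
  by_contra hcon
  push Not at hcon
  obtain ⟨⟨C, N0, hC⟩, ⟨δ, hδ, N, hgap⟩⟩ := hcon
  obtain ⟨c, hc, i0, hlo⟩ := exists_card_els_ge hm C N0 hC
  have hkR : (0 : ℝ) < k := by exact_mod_cast hk
  set ε : ℝ := min (1 / 4) (min (c / 8) (c ^ 3 * δ / (32 * k))) with hεdef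
  have hε : 0 < ε := by
    rw [hεdef]
    refine lt_min (by norm_num) (lt_min (by positivity) (by positivity))
  have hε1 : ε ≤ 1 / 4 := min_le_left _ _
  have hε2 : ε ≤ c / 8 := (min_le_right _ _).trans (min_le_left _ _)
  have hε3 : ε ≤ c ^ 3 * δ / (32 * k) := (min_le_right _ _).trans (min_le_right _ _)
  obtain ⟨r, J0, hJ⟩ := main_sing hm h C N0 hC ε hε
  -- a large bound for th ^ i
  obtain ⟨I1, hI1⟩ := pow_unbounded_of_one_lt (max (8 * (k * 2 ^ r) / c) (2 * ((N : ℝ) + 1) / c)) one_lt_th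
  set I := max (max I1 i0) r with hI
  obtain ⟨i, hi1, hi2⟩ : ∃ i, I ≤ i ∧ Sing (ran a) ε r i := by
    by_contra hno
    push Not at hno
    set J := max J0 (2 * I + 1) with hJdef
    have h1 := hJ J (le_max_left _ _) (Ico I J) (fun i hi => by
      rw [mem_Ico] at hi
      exact ⟨hi.2, Or.inr (hno i hi.1)⟩)
    rw [Nat.card_Ico] at h1
    have h2 : 2 * I + 1 ≤ J := le_max_right _ _
    have h3 : ((J - I : ℕ) : ℝ) = (J : ℝ) - I := by
      rw [Nat.cast_sub (by omega)]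
    rw [h3] at h1
    have h4 : (2 : ℝ) * I + 1 ≤ J := by exact_mod_cast h2
    have h5 : ε * J ≤ 1 / 4 * J := mul_le_mul_of_nonneg_right hε1 (by positivity)
    have h6 : (0 : ℝ) ≤ I := by positivity
    linarith
  have hi1' : I1 ≤ i := le_trans ((le_max_left _ _).trans (le_max_left _ _)) hi1
  have hi0 : i0 ≤ i := le_trans ((le_max_right _ _).trans (le_max_left _ _)) hi1
  have hir : r ≤ i := le_trans (le_max_right _ _) hi1
  have hthi : max (8 * (k * 2 ^ r) / c) (2 * ((N : ℝ) + 1) / c) < th ^ i :=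
    lt_of_lt_of_le hI1 (pow_le_pow_right₀ one_lt_th.le hi1')
  have hb1 : 8 * (k * 2 ^ r) / c < th ^ i := lt_of_le_of_lt (le_max_left _ _) hthi
  have hb2 : 2 * ((N : ℝ) + 1) / c < th ^ i := lt_of_le_of_lt (le_max_right _ _) hthi
  rw [div_lt_iff₀ hc] at hb1 hb2
  have hpos : 0 < th ^ i := pow_pos th_pos i
  set m := ⌊c / 2 * th ^ i⌋₊ with hmdef
  have hm1 : (m : ℝ) ≤ c / 2 * th ^ i := Nat.floor_le (by positivity)
  have hm2 : c / 2 * th ^ i < (m : ℝ) + 1 := Nat.lt_floor_add_one _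
  have hNm : N ≤ m := by
    have : (N : ℝ) ≤ m := by linarith
    exact_mod_cast this
  have hcard := card_le_of_sing hm ε δ r i k N m hk hδ hε hir hNm hgap hi2
  have hge := hlo i hi0
  -- estimate the last term
  have hsq : c ^ 2 / 4 * (th ^ i * th ^ i) ≤ ((m : ℝ) + 1) ^ 2 := by
    have : (c / 2 * th ^ i) ^ 2 ≤ ((m : ℝ) + 1) ^ 2 := pow_le_pow_left₀ (by positivity) hm2.le 2
    calc c ^ 2 / 4 * (th ^ i * th ^ i) = (c / 2 * th ^ i) ^ 2 := by ring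
      _ ≤ _ := this
  have e2 : th ^ i * th ^ i * th ^ i = 2 ^ i := by
    rw [← pow_add, ← pow_add, ← th_pow, ← pow_mul]
    congr 1
    ring
  have e3 : (2 : ℝ) ^ i = 2 ^ (i - r) * 2 ^ r := by
    rw [← pow_add]
    congr 1
    omega
  have hq : (2 : ℝ) ^ (i - r) / (δ * ((m : ℝ) + 1) ^ 2) * 2 ^ r ≤ 4 / (δ * c ^ 2) * th ^ i := by
    have h1 : (2 : ℝ) ^ (i - r) / (δ * ((m : ℝ) + 1) ^ 2) * 2 ^ r = 2 ^ i / (δ * ((m : ℝ) + 1) ^ 2) := by
      rw [e3]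
      ring
    rw [h1, div_le_iff₀ (by positivity), ← e2]
    have h2 : 4 / (δ * c ^ 2) * th ^ i * (δ * (c ^ 2 / 4 * (th ^ i * th ^ i)))
        = th ^ i * th ^ i * th ^ i := by
      field_simp
    rw [← h2]
    have h3 : δ * (c ^ 2 / 4 * (th ^ i * th ^ i)) ≤ δ * ((m : ℝ) + 1) ^ 2 :=
      mul_le_mul_of_nonneg_left hsq hδ.le
    exact mul_le_mul_of_nonneg_left h3 (by positivity)
  have hlast : ε * 2 ^ r * (k * (2 ^ (i - r) / (δ * ((m : ℝ) + 1) ^ 2) + 1))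
      ≤ c / 8 * th ^ i + c / 8 * th ^ i := by
    have h1 : ε * 2 ^ r * (k * (2 ^ (i - r) / (δ * ((m : ℝ) + 1) ^ 2) + 1))
        = ε * k * ((2 : ℝ) ^ (i - r) / (δ * ((m : ℝ) + 1) ^ 2) * 2 ^ r) + ε * (k * 2 ^ r) := by ring
    rw [h1]
    have h2 : ε * k * ((2 : ℝ) ^ (i - r) / (δ * ((m : ℝ) + 1) ^ 2) * 2 ^ r)
        ≤ ε * k * (4 / (δ * c ^ 2) * th ^ i) := mul_le_mul_of_nonneg_left hq (by positivity)
    have h3 : ε * k * (4 / (δ * c ^ 2) * th ^ i) ≤ c / 8 * th ^ i := by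
      have h4 : ε * k ≤ c ^ 3 * δ / 32 := by
        calc ε * k ≤ c ^ 3 * δ / (32 * k) * k := mul_le_mul_of_nonneg_right hε3 hkR.le
          _ = c ^ 3 * δ / 32 := by field_simp
      calc ε * k * (4 / (δ * c ^ 2) * th ^ i) ≤ c ^ 3 * δ / 32 * (4 / (δ * c ^ 2) * th ^ i) :=
            mul_le_mul_of_nonneg_right h4 (by positivity)
        _ = c / 8 * th ^ i := by
          field_simp
          ring
    have h5 : ε * (k * 2 ^ r) ≤ 1 * (k * 2 ^ r) :=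
      mul_le_mul_of_nonneg_right (by linarith) (by positivity)
    linarith
  have h9 : ε * th ^ i ≤ c / 8 * th ^ i := mul_le_mul_of_nonneg_right hε2 hpos.le
  have : 0 < c * th ^ i := by positivity
  linarith

end Pool.Agent.A18
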