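import Pool.Agent.W_MP_a18a27_h33.Fin

set_option autoImplicit false

namespace Pool.Agent.A18

open Finset

theorem sum_gaps {a : ℕ → ℤ} (hm : StrictMono a) (G : ℝ) (F : Finset ℕ) :
    ∀ lo hi : ℝ, lo ≤ hi → (∀ n ∈ F, G < (a (n + 1) : ℝ) - a n) →
      (∀ n ∈ F, lo ≤ (a n : ℝ) ∧ (a (n + 1) : ℝ) ≤ hi) → (F.card : ℝ) * G ≤ hi - lo := by
  classical
  induction F using Finset.induction_on_max with
  | empty =>
    intro lo hi hle _ _
    simp
    linarith
  | insert M F hM ih =>
    intro lo hi hle hG hF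
    have hnot : M ∉ F := fun h => lt_irrefl _ (hM M h)
    rw [card_insert_of_notMem hnot]
    have h1 := hF M (mem_insert_self _ _)
    have h2 := hG M (mem_insert_self _ _)
    have h3 := ih lo (a M) h1.1 (fun n hn => hG n (mem_insert_of_mem hn)) (fun n hn => by
      refine ⟨(hF n (mem_insert_of_mem hn)).1, ?_⟩
      have : a (n + 1) ≤ a M := hm.monotone (hM n hn)
      exact_mod_cast this)
    push_cast
    linarith [h1.2]

theorem card_cell {a : ℕ → ℤ} (hm : StrictMono a) (G : ℝ) (hG0 : 0 < G) (F : Finset ℕ) (lo len : ℝ)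
    (hlen : 0 ≤ len) (hG : ∀ n ∈ F, G < (a (n + 1) : ℝ) - a n)
    (hF : ∀ n ∈ F, lo ≤ (a n : ℝ) ∧ (a n : ℝ) ≤ lo + len) : (F.card : ℝ) ≤ 1 + len / G := by
  classical
  rcases F.eq_empty_or_nonempty with h | h
  · rw [h]
    simp
    positivity
  · set M := F.max' h with hM
    have hMF : M ∈ F := F.max'_mem h
    have h1 := sum_gaps hm G (F.erase M) lo (a M) (hF M hMF).1
      (fun n hn => hG n (mem_of_mem_erase hn)) (fun n hn => by
        refine ⟨(hF n (mem_of_mem_erase hn)).1, ?_⟩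
        have hlt : n < M := lt_of_le_of_ne (F.le_max' n (mem_of_mem_erase hn)) (ne_of_mem_erase hn)
        have : a (n + 1) ≤ a M := hm.monotone hlt
        exact_mod_cast this)
    rw [card_erase_of_mem hMF] at h1
    have h2 : 1 ≤ F.card := card_pos.2 h
    have h3 : ((F.card - 1 : ℕ) : ℝ) = (F.card : ℝ) - 1 := by
      rw [Nat.cast_sub h2]
      simp
    rw [h3] at h1
    have h4 : ((F.card : ℝ) - 1) * G ≤ len := by linarith [(hF M hMF).2]
    have h5 : (F.card : ℝ) - 1 ≤ len / G := by rw [le_div_iff₀ hG0]; exact h4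
    linarith

/-- The number of the large gaps at a singular scale. -/
theorem gap_count {a : ℕ → ℤ} (hm : StrictMono a) (ε G : ℝ) (r i p m : ℕ) (hG : 0 < G)
    (hp : ∀ n, p ≤ n → 0 ≤ a n) (hmi : ∀ n < m, a n < 2 ^ i) (hs : Sing (ran a) ε r i) :
    (((range m).filter (fun n => G < (a (n + 1) : ℝ) - a n)).card : ℝ) ≤
      p + ε * th ^ i + ε * 2 ^ r * (1 + 2 ^ (i - r) / G) := by
  classical
  obtain ⟨S, hS1, hS2⟩ := hs
  set F := (range m).filter (fun n => G < (a (n + 1) : ℝ) - a n) with hF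
  set F1 := (F.filter (fun n => p ≤ n)).filter (fun n => (a n).toNat / 2 ^ (i - r) ∉ S) with hF1
  have hsub : F ⊆ (range p ∪ F1) ∪ S.biUnion (fun s =>
      (F.filter (fun n => p ≤ n)).filter (fun n => (a n).toNat / 2 ^ (i - r) = s)) := by
    intro n hn
    simp only [mem_union, mem_range, mem_biUnion, hF1, mem_filter]
    by_cases h1 : n < p
    · exact Or.inl (Or.inl h1)
    · by_cases h2 : (a n).toNat / 2 ^ (i - r) ∈ S
      · exact Or.inr ⟨_, h2, ⟨hn, by omega⟩, rfl⟩
      · exact Or.inl (Or.inr ⟨⟨hn, by omega⟩, h2⟩)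
  have hc1 : (F1.card : ℝ) ≤ ε * th ^ i := by
    refine le_trans ?_ hS2
    have : F1.card ≤ ((els (ran a) (2 ^ i)).filter (fun x => x / 2 ^ (i - r) ∉ S)).card := by
      refine card_le_card_of_injOn (fun n => (a n).toNat) ?_ ?_
      · intro n hn
        have hn' := hn
        rw [mem_coe, hF1, mem_filter, mem_filter, hF, mem_filter, mem_range] at hn'
        have h0 := hp n hn'.1.2
        have hlt := hmi n hn'.1.1.1
        rw [mem_coe, mem_filter, mem_els]
        refine ⟨⟨?_, n, ?_⟩, hn'.2⟩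
        · have : ((a n).toNat : ℤ) < ((2 ^ i : ℕ) : ℤ) := by
            rw [Int.toNat_of_nonneg h0]
            push_cast
            exact hlt
          exact_mod_cast this
        · rw [Int.toNat_of_nonneg h0]
      · intro n hn n' hn' heq
        rw [mem_coe, hF1, mem_filter, mem_filter] at hn hn'
        have h0 := hp n hn.1.2
        have h0' := hp n' hn'.1.2
        apply hm.injective
        have : ((a n).toNat : ℤ) = ((a n').toNat : ℤ) := by exact_mod_cast heq
        rwa [Int.toNat_of_nonneg h0, Int.toNat_of_nonneg h0'] at this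
    exact_mod_cast this
  have hc2 : ∀ s ∈ S, (((F.filter (fun n => p ≤ n)).filter
      (fun n => (a n).toNat / 2 ^ (i - r) = s)).card : ℝ) ≤ 1 + 2 ^ (i - r) / G := by
    intro s _
    refine card_cell hm G hG _ ((s : ℝ) * 2 ^ (i - r)) (2 ^ (i - r)) (by positivity) ?_ ?_
    · intro n hn
      rw [mem_filter, mem_filter, hF, mem_filter] at hn
      exact hn.1.1.2
    · intro n hn
      rw [mem_filter, mem_filter] at hn
      have h0 := hp n hn.1.2
      have h1 : ((a n).toNat : ℝ) = (a n : ℝ) := by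
        have : (((a n).toNat : ℤ) : ℝ) = (a n : ℝ) := by rw [Int.toNat_of_nonneg h0]
        exact_mod_cast this
      rw [← h1]
      have h2 := hn.2
      have h3 : (a n).toNat = 2 ^ (i - r) * s + (a n).toNat % 2 ^ (i - r) := by
        rw [← h2]
        exact (Nat.div_add_mod _ _).symm
      have h4 : (a n).toNat % 2 ^ (i - r) < 2 ^ (i - r) := Nat.mod_lt _ (by positivity)
      have h5 : ((a n).toNat : ℝ) = 2 ^ (i - r) * s + (((a n).toNat % 2 ^ (i - r) : ℕ) : ℝ) := by
        exact_mod_cast h3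
      have h6 : ((((a n).toNat % 2 ^ (i - r) : ℕ)) : ℝ) ≤ 2 ^ (i - r) := by
        exact_mod_cast h4.le
      rw [h5]
      constructor
      · have : (0 : ℝ) ≤ (((a n).toNat % 2 ^ (i - r) : ℕ) : ℝ) := Nat.cast_nonneg _
        linarith
      · linarith
  have hc3 : (((S.biUnion (fun s => (F.filter (fun n => p ≤ n)).filter
      (fun n => (a n).toNat / 2 ^ (i - r) = s))).card : ℕ) : ℝ) ≤ ε * 2 ^ r * (1 + 2 ^ (i - r) / G) := by
    have h1 : (((S.biUnion (fun s => (F.filter (fun n => p ≤ n)).filter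
        (fun n => (a n).toNat / 2 ^ (i - r) = s))).card : ℕ) : ℝ)
        ≤ ∑ s ∈ S, (((F.filter (fun n => p ≤ n)).filter
          (fun n => (a n).toNat / 2 ^ (i - r) = s)).card : ℝ) := by
      exact_mod_cast card_biUnion_le
    have h2 : ∑ s ∈ S, (((F.filter (fun n => p ≤ n)).filter
          (fun n => (a n).toNat / 2 ^ (i - r) = s)).card : ℝ)
        ≤ (S.card : ℝ) * (1 + 2 ^ (i - r) / G) := by
      rw [← nsmul_eq_mul]
      exact sum_le_card_nsmul _ _ _ hc2
    have h3 : (S.card : ℝ) * (1 + 2 ^ (i - r) / G) ≤ ε * 2 ^ r * (1 + 2 ^ (i - r) / G) :=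
      mul_le_mul_of_nonneg_right hS1 (by positivity)
    linarith
  have h1 : (F.card : ℝ) ≤ (p : ℝ) + F1.card + ((S.biUnion (fun s => (F.filter (fun n => p ≤ n)).filter
      (fun n => (a n).toNat / 2 ^ (i - r) = s))).card : ℕ) := by
    have := (card_le_card hsub).trans ((card_union_le _ _).trans
      (Nat.add_le_add_right (card_union_le _ _) _))
    rw [card_range] at this
    exact_mod_cast this
  linarith

/-- If `a_n = O(n^3)`, then at infinitely many places almost all the gaps are small. -/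
theorem gap_prop {a : ℕ → ℤ} (hm : StrictMono a) (h : IsB3 a) (C : ℝ) (N0 : ℕ)
    (hC : ∀ n, N0 ≤ n → (a n : ℝ) ≤ C * ((n : ℝ) + 1) ^ 3) (δ : ℝ) (hδ : 0 < δ) (N : ℕ) :
    ∃ m : ℕ, N ≤ m ∧
      (((range m).filter (fun n => δ * (m : ℝ) ^ 2 < (a (n + 1) : ℝ) - a n)).card : ℝ) ≤ δ * m := by
  classical
  obtain ⟨c, hc, i0, hlo⟩ := exists_card_els_ge hm C N0 hC
  set ε : ℝ := min (1 / 4) (min (δ * c / 4) (c ^ 3 * δ ^ 2 / 4)) with hεdef
  have hε : 0 < ε := by
    rw [hεdef]
    refine lt_min (by norm_num) (lt_min (by positivity) (by positivity))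
  have hε1 : ε ≤ 1 / 4 := min_le_left _ _
  have hε2 : ε ≤ δ * c / 4 := (min_le_right _ _).trans (min_le_left _ _)
  have hε3 : ε ≤ c ^ 3 * δ ^ 2 / 4 := (min_le_right _ _).trans (min_le_right _ _)
  obtain ⟨r, J0, hJ⟩ := main_sing hm h C N0 hC ε hε
  -- the negative terms
  obtain ⟨p, hp⟩ : ∃ p : ℕ, ∀ n, p ≤ n → 0 ≤ a n := by
    have hlin : ∀ n : ℕ, a 0 + n ≤ a n := by
      intro n
      induction n with
      | zero => simp
      | succ n ih =>
        have h2 : a n < a (n + 1) := hm (Nat.lt_succ_self n)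
        push_cast
        linarith
    refine ⟨(1 - a 0).toNat, fun n hn => ?_⟩
    have := hlin n
    omega
  obtain ⟨I1, hI1⟩ := pow_unbounded_of_one_lt
    (max (4 * (p + 2 ^ r) / (δ * c)) (((N : ℝ) + 1) / c)) one_lt_th
  set I := max (max I1 i0) r with hI
  obtain ⟨i, hi1, hi2⟩ : ∃ i, I ≤ i ∧ Sing (ran a) ε r i := by
    by_contra hno
    push Not at hno
    set J := max J0 (2 * I + 1) with hJdef
    have h1 := hJ J (le_max_left _ _) (Ico I J) (fun i hi => by
      rw [mem_Ico] at hi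
      exact ⟨hi.2, Or.inr (hno i hi.1)⟩)
    rw [Nat.card_Ico] at h1
    have h2 : 2 * I + 1 ≤ J := le_max_right _ _
    have h3 : ((J - I : ℕ) : ℝ) = (J : ℝ) - I := by
      rw [Nat.cast_sub (by omega)]
    rw [h3] at h1
    have h4 : (2 : ℝ) * I + 1 ≤ J := by exact_mod_cast h2
    have h5 : ε * J ≤ 1 / 4 * J := mul_le_mul_of_nonneg_right hε1 (by positivity)
    have h6 : (0 : ℝ) ≤ I := by positivity
    linarith
  have hi1' : I1 ≤ i := le_trans ((le_max_left _ _).trans (le_max_left _ _)) hi1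
  have hi0 : i0 ≤ i := le_trans ((le_max_right _ _).trans (le_max_left _ _)) hi1
  have hir : r ≤ i := le_trans (le_max_right _ _) hi1
  have hthi : max (4 * (p + 2 ^ r) / (δ * c)) (((N : ℝ) + 1) / c) < th ^ i :=
    lt_of_lt_of_le hI1 (pow_le_pow_right₀ one_lt_th.le hi1')
  have hb1 : 4 * ((p : ℝ) + 2 ^ r) / (δ * c) < th ^ i := lt_of_le_of_lt (le_max_left _ _) hthi
  have hb2 : ((N : ℝ) + 1) / c < th ^ i := lt_of_le_of_lt (le_max_right _ _) hthi
  rw [div_lt_iff₀ (by positivity)] at hb1 hb2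
  have hpos : 0 < th ^ i := pow_pos th_pos i
  -- the number of the terms below 2 ^ i
  obtain ⟨m, hm1, hm2⟩ : ∃ m : ℕ, (∀ n < m, a n < 2 ^ i) ∧ (els (ran a) (2 ^ i)).card ≤ m := by
    set e := els (ran a) (2 ^ i) with he
    -- the least index with a n ≥ 2 ^ i
    have hex : ∃ n, 2 ^ i ≤ a n := by
      by_contra hno
      push Not at hno
      have hlin : ∀ n : ℕ, a 0 + n ≤ a n := by
        intro n
        induction n with
        | zero => simp
        | succ n ih =>
          have h2 : a n < a (n + 1) := hm (Nat.lt_succ_self n)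
          push_cast
          linarith
      have h1 := hlin (2 ^ i - a 0).toNat
      have h2 := hno (2 ^ i - a 0).toNat
      omega
    refine ⟨Nat.find hex, fun n hn => not_le.1 (Nat.find_min hex hn), ?_⟩
    have hf : ∀ x ∈ e, ∃ n, n < Nat.find hex ∧ a n = (x : ℤ) := by
      intro x hx
      rw [he, mem_els] at hx
      obtain ⟨n, hn⟩ := hx.2
      refine ⟨n, ?_, hn⟩
      by_contra hge
      have h1 : a (Nat.find hex) ≤ a n := hm.monotone (not_lt.1 hge)
      have h2 := Nat.find_spec hex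
      have h3 : ((x : ℕ) : ℤ) < ((2 ^ i : ℕ) : ℤ) := by exact_mod_cast hx.1
      push_cast at h3
      omega
    choose! f hf1 hf2 using hf
    calc e.card ≤ (range (Nat.find hex)).card := by
          refine card_le_card_of_injOn f (fun x hx => ?_) (fun x hx y hy hxy => ?_)
          · rw [mem_coe, mem_range]
            exact hf1 x hx
          · have h1 := hf2 x hx
            have h2 := hf2 y hy
            rw [hxy, h2] at h1
            exact_mod_cast h1.symm
      _ = Nat.find hex := card_range _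
  have hmc : c * th ^ i ≤ m := (hlo i hi0).trans (by exact_mod_cast hm2)
  have hmpos : (0 : ℝ) < m := lt_of_lt_of_le (by positivity) hmc
  refine ⟨m, ?_, ?_⟩
  · have : (N : ℝ) ≤ m := by linarith
    exact_mod_cast this
  have hG : 0 < δ * (m : ℝ) ^ 2 := by positivity
  refine (gap_count hm ε (δ * (m : ℝ) ^ 2) r i p m hG hp hm1 hi2).trans ?_
  have e2 : th ^ i * th ^ i * th ^ i = 2 ^ i := by
    rw [← pow_add, ← pow_add, ← th_pow, ← pow_mul]
    congr 1
    ring
  have e3 : (2 : ℝ) ^ i = 2 ^ (i - r) * 2 ^ r := by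
    rw [← pow_add]
    congr 1
    omega
  have h1 : ε * 2 ^ r * (1 + 2 ^ (i - r) / (δ * (m : ℝ) ^ 2))
      = ε * 2 ^ r + ε * (2 ^ i / (δ * (m : ℝ) ^ 2)) := by
    rw [e3]
    ring
  have hsq : c ^ 2 * (th ^ i * th ^ i) ≤ (m : ℝ) ^ 2 := by
    have : (c * th ^ i) ^ 2 ≤ (m : ℝ) ^ 2 := pow_le_pow_left₀ (by positivity) hmc 2
    calc c ^ 2 * (th ^ i * th ^ i) = (c * th ^ i) ^ 2 := by ring
      _ ≤ _ := this
  have h2 : (2 : ℝ) ^ i / (δ * (m : ℝ) ^ 2) ≤ 1 / (δ * c ^ 2) * th ^ i := by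
    rw [div_le_iff₀ hG, ← e2]
    have h3 : 1 / (δ * c ^ 2) * th ^ i * (δ * (c ^ 2 * (th ^ i * th ^ i)))
        = th ^ i * th ^ i * th ^ i := by
      field_simp
    rw [← h3]
    exact mul_le_mul_of_nonneg_left (mul_le_mul_of_nonneg_left hsq hδ.le) (by positivity)
  have h4 : ε * (2 ^ i / (δ * (m : ℝ) ^ 2)) ≤ δ * c / 4 * th ^ i := by
    calc ε * (2 ^ i / (δ * (m : ℝ) ^ 2)) ≤ ε * (1 / (δ * c ^ 2) * th ^ i) :=
          mul_le_mul_of_nonneg_left h2 hε.le
      _ ≤ c ^ 3 * δ ^ 2 / 4 * (1 / (δ * c ^ 2) * th ^ i) :=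
          mul_le_mul_of_nonneg_right hε3 (by positivity)
      _ = δ * c / 4 * th ^ i := by
        field_simp
  have h5 : ε * th ^ i ≤ δ * c / 4 * th ^ i := mul_le_mul_of_nonneg_right hε2 hpos.le
  have h6 : ε * 2 ^ r ≤ 1 * 2 ^ r := mul_le_mul_of_nonneg_right (by linarith) (by positivity)
  have h7 : δ * (c * th ^ i) ≤ δ * m := mul_le_mul_of_nonneg_left hmc hδ.le
  rw [h1]
  have h8 : δ * c / 4 * th ^ i = δ * (c * th ^ i) / 4 := by ring
  have h9 : th ^ i * (δ * c) = δ * (c * th ^ i) := by ring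
  rw [h9] at hb1
  have h10 : 0 < δ * (c * th ^ i) := by positivity
  linarith

end Pool.Agent.A18
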