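import Pool.Agent.W_MP_a18a27_h33.Defs

set_option autoImplicit false

namespace Pool.Agent.A18

open Finset

theorem exists_chunk (G : ℕ → ℝ) (R : ℕ → ℕ) (H : ℕ) (τ D : ℝ) (hH : 0 < H) (h0 : 0 ≤ G (R 0))
    (hD : G (R H) ≤ D) (hHD : D ≤ H * τ) : ∃ u < H, G (R (u + 1)) - G (R u) ≤ τ := by
  by_contra hno
  push Not at hno
  have key : ∀ v, v ≤ H → 0 < v → v * τ < G (R v) - G (R 0) := by
    intro v
    induction v with
    | zero => intro _ h; omega
    | succ v ih =>
      intro hv _
      have h1 := hno v (by omega)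
      rcases Nat.eq_zero_or_pos v with h2 | h2
      · subst h2
        simp only [zero_add, Nat.cast_one, one_mul] at h1 ⊢
        exact h1
      · have h3 := ih (by omega) h2
        push_cast
        linarith
  have := key H le_rfl hH
  linarith

theorem exists_B (A : Set ℕ) (ε C : ℝ) (r i h : ℕ) (hε : 0 < ε) (hC : 0 < C) (hri : r ≤ i) (hhi : h ≤ i)
    (hup : ∀ m, ((els A (2 ^ m)).card : ℝ) ≤ C * th ^ m) (hh : 2 * C ≤ ε * th ^ h)
    (hns : ¬ Sing A ε r i) :
    ∃ B : Finset ℕ, (∀ x ∈ B, x ∈ A ∧ 2 ^ (i - h) ≤ x ∧ x < 2 ^ i) ∧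
      ε / 2 * th ^ i ≤ (B.card : ℝ) ∧ ∀ I, wt B (2 ^ (i - r)) I ≤ (C / ε) * th ^ i / 2 ^ r := by
  classical
  have hthp : 0 < th := zero_lt_one.trans one_lt_th
  set N := 2 ^ (i - r) with hN
  set d : ℝ := (C / ε) * th ^ i / 2 ^ r with hd
  have hdpos : 0 < d := by positivity
  set T := (range (2 ^ r)).filter (fun I => d < wt (els A (2 ^ i)) N I) with hT
  have hNr : N * 2 ^ r = 2 ^ i := by
    rw [hN, ← pow_add]
    congr 1
    omega
  -- the number of the heavy cells
  have hTcard : (T.card : ℝ) ≤ ε * 2 ^ r := by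
    have h1 : (T.card : ℝ) * d ≤ ∑ I ∈ T, wt (els A (2 ^ i)) N I := by
      rw [← nsmul_eq_mul]
      exact card_nsmul_le_sum _ _ _ (fun I hI => (mem_filter.1 hI).2.le)
    have h2 : ∑ I ∈ T, wt (els A (2 ^ i)) N I ≤ ((els A (2 ^ i)).card : ℝ) := by
      have h3 : ∑ I ∈ T, ((els A (2 ^ i)).filter (fun x => x / N = I)).card ≤ (els A (2 ^ i)).card := by
        rw [← card_biUnion (by
          intro I _ I' _ hne
          rw [Function.onFun, disjoint_left]
          intro x hx hx'
          exact hne ((mem_filter.1 hx).2.symm.trans (mem_filter.1 hx').2))]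
        exact card_le_card (by
          intro x hx
          rw [mem_biUnion] at hx
          obtain ⟨I, _, hx⟩ := hx
          exact (mem_filter.1 hx).1)
      unfold wt
      exact_mod_cast h3
    have h4 := hup i
    have h5 : (T.card : ℝ) * d ≤ C * th ^ i := by linarith
    have h6 : ε * 2 ^ r * d = C * th ^ i := by
      rw [hd]
      field_simp
    have h7 : (T.card : ℝ) * d ≤ ε * 2 ^ r * d := by rw [h6]; exact h5
    exact le_of_mul_le_mul_right h7 hdpos
  -- the part outside of the heavy cells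
  set B' := (els A (2 ^ i)).filter (fun x => x / N ∉ T) with hB'
  have hB'card : ε * th ^ i < (B'.card : ℝ) := by
    by_contra hle
    exact hns ⟨T, hTcard, not_lt.1 hle⟩
  set B := B'.filter (fun x => 2 ^ (i - h) ≤ x) with hB
  refine ⟨B, ?_, ?_, ?_⟩
  · intro x hx
    rw [hB, mem_filter, hB', mem_filter, mem_els] at hx
    exact ⟨hx.1.1.2, hx.2, hx.1.1.1⟩
  · have h1 : B' ⊆ B ∪ els A (2 ^ (i - h)) := by
      intro x hx
      rw [mem_union]
      by_cases hx2 : 2 ^ (i - h) ≤ x
      · exact Or.inl (mem_filter.2 ⟨hx, hx2⟩)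
      · right
        rw [hB', mem_filter, mem_els] at hx
        rw [mem_els]
        exact ⟨not_le.1 hx2, hx.1.2⟩
    have h2 : (B'.card : ℝ) ≤ B.card + (els A (2 ^ (i - h))).card := by
      exact_mod_cast (card_le_card h1).trans (card_union_le _ _)
    have h3 := hup (i - h)
    have h4 : th ^ (i - h) * th ^ h = th ^ i := by
      rw [← pow_add]
      congr 1
      omega
    have h5 : 0 < th ^ (i - h) := pow_pos hthp _
    have h6 : 2 * C * th ^ (i - h) ≤ ε * th ^ h * th ^ (i - h) := mul_le_mul_of_nonneg_right hh h5.le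
    have h7 : ε * th ^ h * th ^ (i - h) = ε * th ^ i := by rw [← h4]; ring
    rw [h7] at h6
    linarith
  · intro I
    by_cases hI : wt B N I = 0
    · rw [hI]
      exact hdpos.le
    · have hne : (B.filter (fun x => x / N = I)).card ≠ 0 := by
        intro h0
        apply hI
        unfold wt
        rw [h0]
        simp
      obtain ⟨x, hx⟩ := card_pos.1 (Nat.pos_of_ne_zero hne)
      rw [mem_filter, hB, mem_filter, hB', mem_filter, mem_els] at hx
      obtain ⟨⟨⟨⟨hxi, _⟩, hxT⟩, _⟩, hxI⟩ := hx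
      have hIr : I < 2 ^ r := by
        rw [← hxI]
        exact Nat.div_lt_of_lt_mul (by rw [hNr]; exact hxi)
      have hnot : ¬ d < wt (els A (2 ^ i)) N I := by
        intro hlt
        apply hxT
        rw [hxI, hT, mem_filter, mem_range]
        exact ⟨hIr, hlt⟩
      refine le_trans ?_ (not_lt.1 hnot)
      unfold wt
      have : (B.filter (fun x => x / N = I)) ⊆ (els A (2 ^ i)).filter (fun x => x / N = I) := by
        intro y hy
        rw [mem_filter, hB, mem_filter, hB', mem_filter] at hy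
        rw [mem_filter]
        exact ⟨hy.1.1.1, hy.2⟩
      exact_mod_cast card_le_card this

end Pool.Agent.A18
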