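import Pool.Agent.W_MP_a18a27_h33.Defs

set_option autoImplicit false

namespace Pool.Agent.A18

open Finset

theorem up_div_bounds (N x z b : ℕ) (hN : 0 < N) (hq : x / N = z / N + b / N) :
    x < N + z + b ∧ z + b < x + 2 * N := by
  have hx1 := Nat.div_add_mod x N
  have hz1 := Nat.div_add_mod z N
  have hb1 := Nat.div_add_mod b N
  have hx2 := Nat.mod_lt x hN
  have hz2 := Nat.mod_lt z hN
  have hb2 := Nat.mod_lt b hN
  rw [hq, mul_add] at hx1
  constructor <;> omega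

/-- The total number of triples for one resolution `2^n`.

PROOF.  The left side is the number of pairs `(i, (x, z, b))` in `I.sigma ..` (`Finset.card_sigma`).  Map such a pair to
`(i - Nat.log 2 x - 1, x + 2 * 2^n - (z + b))`, an element of `range h ×ˢ range (3 * 2^n)`:
* `2^(i-h) ≤ x < 2^i` gives `i - h ≤ Nat.log 2 x < i` (`Nat.le_log_of_pow_le`, `Nat.log_lt_of_lt_pow`).
* with `N = 2^n` and `x / N = z / N + b / N`: `x < (x/N + 1) * N ≤ z + b + N` and `z + b < (z/N + b/N + 2) * N ≤ x + 2 * N`.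
The map is injective: if two images are equal, then `x + z' + b' = x' + z + b` (the subtractions are not truncated); `b < z` as
`b < 2^(i-h) ≤ z`, and `z < x`, as `b / N ≥ 1` (`N ≤ b`), so `z / N < x / N`; the same for the second triple.  `U3` gives the
equality of the triples, and then `i = i'`. -/
theorem tri_upper (A : Set ℕ) (hU : U3 A) (h n : ℕ) (I : Finset ℕ) (B S : ℕ → Finset ℕ)
    (hh : ∀ i ∈ I, h ≤ i)
    (hB : ∀ i ∈ I, ∀ x ∈ B i, x ∈ A ∧ 2 ^ (i - h) ≤ x ∧ x < 2 ^ i)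
    (hS : ∀ i ∈ I, ∀ b ∈ S i, b ∈ A ∧ 2 ^ n ≤ b ∧ b < 2 ^ (i - h)) :
    ∑ i ∈ I, (((B i ×ˢ B i ×ˢ S i).filter
      (fun t => t.1 / 2 ^ n = t.2.1 / 2 ^ n + t.2.2 / 2 ^ n)).card) ≤ h * (3 * 2 ^ n) := by
  classical
  have hN : 0 < 2 ^ n := by positivity
  rw [← Finset.card_sigma]
  have hc : (range h ×ˢ range (3 * 2 ^ n)).card = h * (3 * 2 ^ n) := by
    rw [Finset.card_product, Finset.card_range, Finset.card_range]
  rw [← hc]
  have key : ∀ i x z b : ℕ, i ∈ I → x ∈ B i → z ∈ B i → b ∈ S i →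
      x / 2 ^ n = z / 2 ^ n + b / 2 ^ n →
      (i - h ≤ Nat.log 2 x ∧ Nat.log 2 x < i ∧ h ≤ i) ∧
      (x < 2 ^ n + z + b ∧ z + b < x + 2 * 2 ^ n) ∧ b < z ∧ z < x := by
    intro i x z b hi hx hz hb hq
    obtain ⟨_, hx1, hx2⟩ := hB i hi x hx
    obtain ⟨_, hz1, hz2⟩ := hB i hi z hz
    obtain ⟨_, hb1, hb2⟩ := hS i hi b hb
    have hx0 : x ≠ 0 := by
      have : 0 < 2 ^ (i - h) := by positivity
      omega
    refine ⟨⟨Nat.le_log_of_pow_le one_lt_two hx1, Nat.log_lt_of_lt_pow hx0 hx2, hh i hi⟩,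
      up_div_bounds _ _ _ _ hN hq, by omega, ?_⟩
    have hb3 : 1 ≤ b / 2 ^ n := (Nat.one_le_div_iff hN).2 hb1
    by_contra hcon
    have h1 := Nat.div_le_div_right (c := 2 ^ n) (not_lt.1 hcon)
    omega
  refine Finset.card_le_card_of_injOn
    (fun p => (p.1 - Nat.log 2 p.2.1 - 1, p.2.1 + 2 * 2 ^ n - (p.2.2.1 + p.2.2.2))) ?_ ?_
  · rintro ⟨i, x, z, b⟩ hp
    simp only [Finset.coe_sigma, Set.mem_sigma_iff, Finset.mem_coe, Finset.mem_filter,
      Finset.mem_product] at hp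
    obtain ⟨hi, ⟨hx, hz, hb⟩, hq⟩ := hp
    obtain ⟨⟨k1, k2, k3⟩, ⟨k4, k5⟩, k6, k7⟩ := key i x z b hi hx hz hb hq
    simp only [Finset.coe_product, Set.mem_prod, Finset.mem_coe, Finset.mem_range]
    constructor <;> omega
  · rintro ⟨i, x, z, b⟩ hp ⟨i', x', z', b'⟩ hp' heq
    simp only [Finset.coe_sigma, Set.mem_sigma_iff, Finset.mem_coe, Finset.mem_filter,
      Finset.mem_product] at hp hp'
    obtain ⟨hi, ⟨hx, hz, hb⟩, hq⟩ := hp
    obtain ⟨hi', ⟨hx', hz', hb'⟩, hq'⟩ := hp'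
    obtain ⟨⟨k1, k2, k3⟩, ⟨k4, k5⟩, k6, k7⟩ := key i x z b hi hx hz hb hq
    obtain ⟨⟨k1', k2', k3'⟩, ⟨k4', k5'⟩, k6', k7'⟩ := key i' x' z' b' hi' hx' hz' hb' hq'
    simp only [Prod.mk.injEq] at heq
    obtain ⟨h1, h2⟩ := heq
    have h3 : x + z' + b' = x' + z + b := by omega
    obtain ⟨e1, e2, e3⟩ := hU x (hB i hi x hx).1 z (hB i hi z hz).1 b (hS i hi b hb).1
      x' (hB i' hi' x' hx').1 z' (hB i' hi' z' hz').1 b' (hS i' hi' b' hb').1 k6 k7 k6' k7' h3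
    subst e1 e2 e3
    have e4 : i = i' := by omega
    subst e4
    rfl

end Pool.Agent.A18
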