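import Pool.Agent.W_MP_a18a27_h33.CorrLevel
import Pool.Agent.W_MP_a18a27_h33.Upper
import Pool.Agent.W_MP_a18a27_h33.Heavy

set_option autoImplicit false

namespace Pool.Agent.A18

open Finset

/-- The triples counted at one scale and one resolution. -/
def tri (B S : Finset ℕ) (n : ℕ) : Finset (ℕ × ℕ × ℕ) :=
  (B ×ˢ B ×ˢ S).filter (fun t => t.1 / 2 ^ n = t.2.1 / 2 ^ n + t.2.2 / 2 ^ n)

/-- The elements of `A` in `[2^n, 2^(i-R-3))`. -/
noncomputable def sml (A : Set ℕ) (i R n : ℕ) : Finset ℕ :=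
  (els A (2 ^ (i - R - 3))).filter (fun b => 2 ^ n ≤ b)

theorem th_pos : 0 < th := zero_lt_one.trans one_lt_th

theorem card_sml (A : Set ℕ) (c C : ℝ) (i0 : ℕ) (hc : 0 < c)
    (hlo : ∀ i, i0 ≤ i → c * th ^ i ≤ ((els A (2 ^ i)).card : ℝ))
    (hup : ∀ m, ((els A (2 ^ m)).card : ℝ) ≤ C * th ^ m) (g : ℕ) (hg : 2 * C ≤ c * th ^ g)
    (i R n : ℕ) (hi : i0 + R + 3 ≤ i) (hn : n + (R + 3 + g) ≤ i) :
    c / 2 * th ^ (i - R - 3) ≤ ((sml A i R n).card : ℝ) := by
  have h1 : ((els A (2 ^ (i - R - 3))).card : ℝ)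
      ≤ ((sml A i R n).card : ℝ) + ((els A (2 ^ n)).card : ℝ) := by
    have : els A (2 ^ (i - R - 3)) ⊆ sml A i R n ∪ els A (2 ^ n) := by
      intro b hb
      rw [mem_els] at hb
      rw [mem_union, sml, mem_filter, mem_els, mem_els]
      by_cases h : 2 ^ n ≤ b
      · exact Or.inl ⟨hb, h⟩
      · exact Or.inr ⟨by omega, hb.2⟩
    exact_mod_cast (card_le_card this).trans (card_union_le _ _)
  have h2 := hlo (i - R - 3) (by omega)
  have h3 := hup n
  have h4 : th ^ n * th ^ g ≤ th ^ (i - R - 3) := by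
    rw [← pow_add]
    exact pow_le_pow_right₀ one_lt_th.le (by omega)
  have h5 : 0 < th ^ n := pow_pos th_pos n
  have h6 : C * th ^ n ≤ c / 2 * th ^ (i - R - 3) := by
    have h7 : (2 * C) * th ^ n ≤ (c * th ^ g) * th ^ n := mul_le_mul_of_nonneg_right hg h5.le
    have h8 : c * (th ^ n * th ^ g) ≤ c * th ^ (i - R - 3) := mul_le_mul_of_nonneg_left h4 hc.le
    nlinarith
  linarith

/-- The lower bound at one scale which is not singular. -/
theorem one_scale (A : Set ℕ) (c C ε : ℝ) (i0 g h H : ℕ) (R : ℕ → ℕ) (hc : 0 < c) (hC : 0 < C)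
    (hε : 0 < ε) (hH : 0 < H)
    (hlo : ∀ i, i0 ≤ i → c * th ^ i ≤ ((els A (2 ^ i)).card : ℝ))
    (hup : ∀ m, ((els A (2 ^ m)).card : ℝ) ≤ C * th ^ m)
    (hg : 2 * C ≤ c * th ^ g) (hh : 2 * C ≤ ε * th ^ h)
    (hHD : C / ε * (2 / ε) ≤ H / 68) (hR : Monotone R) (hR0 : R 0 = h)
    (i : ℕ) (hi : i0 + R H + 3 + g ≤ i) (hns : ¬ Sing A ε (R H) i) :
    ∃ (B : Finset ℕ) (u : ℕ), u < H ∧ (∀ x ∈ B, x ∈ A ∧ 2 ^ (i - h) ≤ x ∧ x < 2 ^ i) ∧
      ∀ n, n + (R u + 3 + g) ≤ i → i < n + R (u + 1) →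
        c * ε ^ 2 / 32 / th ^ (R u) * 2 ^ n ≤ ((tri B (sml A i (R u) n) n).card : ℝ) := by
  have hhi : h ≤ i := by
    have : R 0 ≤ R H := hR (Nat.zero_le _)
    omega
  obtain ⟨B, hB1, hB2, hB3⟩ := exists_B A ε C (R H) i h hε hC (by omega) hhi hup hh hns
  have hBi : ∀ x ∈ B, x < 2 ^ i := fun x hx => (hB1 x hx).2.2
  have hthi : 0 < th ^ i := pow_pos th_pos i
  have hBpos : (0 : ℝ) < B.card := lt_of_lt_of_le (by positivity) hB2
  have hth : th ^ i ≤ 2 / ε * B.card := by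
    rw [div_mul_eq_mul_div, le_div_iff₀ hε]
    linarith
  have hen : en B i (R H) ≤ C / ε * (2 / ε) * (B.card : ℝ) ^ 2 := by
    refine (en_le B i (R H) _ (by omega) hBi hB3).trans ?_
    have h1 : (2 : ℝ) ^ (R H) * (C / ε * th ^ i / 2 ^ (R H) * B.card) = C / ε * th ^ i * B.card := by
      field_simp
    rw [h1]
    have h2 : C / ε * th ^ i ≤ C / ε * (2 / ε * B.card) :=
      mul_le_mul_of_nonneg_left hth (by positivity)
    calc C / ε * th ^ i * B.card ≤ C / ε * (2 / ε * B.card) * B.card :=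
          mul_le_mul_of_nonneg_right h2 hBpos.le
      _ = C / ε * (2 / ε) * (B.card : ℝ) ^ 2 := by ring
  have hen0 : 0 ≤ en B i (R 0) := by
    unfold en
    positivity
  obtain ⟨u, hu, hinc⟩ := exists_chunk (fun j => en B i j) R H ((B.card : ℝ) ^ 2 / 68)
    (C / ε * (2 / ε) * (B.card : ℝ) ^ 2) hH hen0 hen (by
      calc C / ε * (2 / ε) * (B.card : ℝ) ^ 2 ≤ H / 68 * (B.card : ℝ) ^ 2 :=
            mul_le_mul_of_nonneg_right hHD (by positivity)
        _ = H * ((B.card : ℝ) ^ 2 / 68) := by ring)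
  refine ⟨B, u, hu, hB1, fun n hn1 hn2 => ?_⟩
  have hRuH : R (u + 1) ≤ R H := hR (by omega)
  have hRu : R u ≤ R (u + 1) := hR (by omega)
  -- the level
  set j := i - n with hj
  have hij : i - j = n := by omega
  have hsl := scale_lower B (sml A i (R u) n) i (R u) j (by omega) (by omega) hBi (by
    have h1 : en B i j ≤ en B i (R (u + 1)) := en_mono B i j (R (u + 1)) (by omega) (by omega)
    have h2 : en B i (R (u + 1)) - en B i (R u) ≤ (B.card : ℝ) ^ 2 / 68 := hinc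
    linarith) (by
    intro b hb
    rw [sml, mem_filter, mem_els] at hb
    exact hb.1.1)
  rw [hij] at hsl
  have hcs := card_sml A c C i0 hc hlo hup g hg i (R u) n (by omega) hn1
  -- arithmetic
  have hT : (2 : ℝ) ^ j * ((tri B (sml A i (R u) n) n).card : ℝ)
      ≥ c / 2 * th ^ (i - R u - 3) * ((ε / 2 * th ^ i) ^ 2 / 2) := by
    refine le_trans ?_ hsl
    have h1 : (ε / 2 * th ^ i) ^ 2 ≤ (B.card : ℝ) ^ 2 := pow_le_pow_left₀ (by positivity) hB2 2
    have h2 : (ε / 2 * th ^ i) ^ 2 / 2 ≤ (B.card : ℝ) ^ 2 / 2 := by linarith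
    exact mul_le_mul hcs h2 (by positivity) (by positivity)
  have e1 : th ^ (i - R u - 3) * th ^ (R u) * 2 = th ^ i := by
    rw [← th_pow, ← pow_add, ← pow_add]
    congr 1
    omega
  have e2 : th ^ i * th ^ i * th ^ i = 2 ^ i := by
    rw [← pow_add, ← pow_add, ← th_pow, ← pow_mul]
    congr 1
    ring
  have e3 : (2 : ℝ) ^ i = 2 ^ j * 2 ^ n := by
    rw [← pow_add]
    congr 1
    omega
  have hRpos : 0 < th ^ (R u) := pow_pos th_pos _
  have h2j : (0 : ℝ) < 2 ^ j := by positivity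
  rw [div_mul_eq_mul_div, div_le_iff₀ hRpos]
  have key : (2 : ℝ) ^ j * (c * ε ^ 2 / 32 * 2 ^ n)
      ≤ 2 ^ j * (((tri B (sml A i (R u) n) n).card : ℝ) * th ^ (R u)) := by
    have h3 : c / 2 * th ^ (i - R u - 3) * ((ε / 2 * th ^ i) ^ 2 / 2) * th ^ (R u)
        = c * ε ^ 2 / 32 * (th ^ i * th ^ i * th ^ i) := by
      have : th ^ (i - R u - 3) * th ^ (R u) = th ^ i / 2 := by linarith
      calc c / 2 * th ^ (i - R u - 3) * ((ε / 2 * th ^ i) ^ 2 / 2) * th ^ (R u)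
          = c * ε ^ 2 / 16 * (th ^ i * th ^ i) * (th ^ (i - R u - 3) * th ^ (R u)) := by ring
        _ = c * ε ^ 2 / 16 * (th ^ i * th ^ i) * (th ^ i / 2) := by rw [this]
        _ = c * ε ^ 2 / 32 * (th ^ i * th ^ i * th ^ i) := by ring
    have h4 : c / 2 * th ^ (i - R u - 3) * ((ε / 2 * th ^ i) ^ 2 / 2) * th ^ (R u)
        ≤ 2 ^ j * ((tri B (sml A i (R u) n) n).card : ℝ) * th ^ (R u) :=
      mul_le_mul_of_nonneg_right hT hRpos.le
    rw [h3, e2, e3] at h4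
    calc (2 : ℝ) ^ j * (c * ε ^ 2 / 32 * 2 ^ n) = c * ε ^ 2 / 32 * (2 ^ j * 2 ^ n) := by ring
      _ ≤ _ := h4
      _ = _ := by ring
  exact le_of_mul_le_mul_left key h2j

/-- The chunk boundaries. -/
noncomputable def bd (κ Λ : ℝ) (g h : ℕ) : ℕ → ℕ
  | 0 => h
  | u + 1 => bd κ Λ g h u + 3 + g + ⌈Λ * th ^ (bd κ Λ g h u) / κ⌉₊

theorem bd_mono (κ Λ : ℝ) (g h : ℕ) : Monotone (bd κ Λ g h) :=
  monotone_nat_of_le_succ fun u => by
    show bd κ Λ g h u ≤ bd κ Λ g h u + 3 + g + _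
    omega

/-- All but few of the scales are singular. -/
theorem few_nonsing (A : Set ℕ) (hU : U3 A) (c C : ℝ) (hc : 0 < c) (hC : 0 < C) (i0 : ℕ)
    (hlo : ∀ i, i0 ≤ i → c * th ^ i ≤ ((els A (2 ^ i)).card : ℝ))
    (hup : ∀ m, ((els A (2 ^ m)).card : ℝ) ≤ C * th ^ m) (ε : ℝ) (hε : 0 < ε) :
    ∃ r J0 : ℕ, ∀ J, J0 ≤ J → ∀ T : Finset ℕ, (∀ i ∈ T, i < J ∧ (i < r ∨ ¬ Sing A ε r i)) →
      (T.card : ℝ) ≤ ε * J := by
  classical
  obtain ⟨g, hg⟩ := pow_unbounded_of_one_lt (2 * C / c) one_lt_th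
  obtain ⟨h, hh⟩ := pow_unbounded_of_one_lt (2 * C / ε) one_lt_th
  have hg' : 2 * C ≤ c * th ^ g := by
    rw [div_lt_iff₀ hc] at hg
    linarith
  have hh' : 2 * C ≤ ε * th ^ h := by
    rw [div_lt_iff₀ hε] at hh
    linarith
  obtain ⟨H, hH⟩ := exists_nat_gt (68 * (C / ε * (2 / ε)))
  have hHpos : 0 < H := by
    have : (0 : ℝ) < H := lt_of_le_of_lt (by positivity) hH
    exact_mod_cast this
  set κ : ℝ := c * ε ^ 2 / 32 with hκ
  have hκpos : 0 < κ := by positivity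
  set Λ : ℝ := 6 * (h + 1) / ε with hΛ
  have hΛpos : 0 < Λ := by positivity
  set R := bd κ Λ g h with hR
  have hRm : Monotone R := bd_mono κ Λ g h
  set r := R H with hr
  set i1 := i0 + r + 3 + g with hi1
  obtain ⟨J0, hJ0⟩ := exists_nat_gt (2 * (i1 : ℝ) / ε)
  refine ⟨r, J0, fun J hJ T hT => ?_⟩
  -- the bad scales
  set bad := T.filter (fun i => i1 ≤ i) with hbad
  have hex : ∀ i ∈ bad, ∃ (B : Finset ℕ) (u : ℕ), u < H ∧
      (∀ x ∈ B, x ∈ A ∧ 2 ^ (i - h) ≤ x ∧ x < 2 ^ i) ∧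
      ∀ n, n + (R u + 3 + g) ≤ i → i < n + R (u + 1) →
        κ / th ^ (R u) * 2 ^ n ≤ ((tri B (sml A i (R u) n) n).card : ℝ) := by
    intro i hi
    rw [hbad, mem_filter] at hi
    refine one_scale A c C ε i0 g h H R hc hC hε hHpos hlo hup hg' hh' (by linarith) hRm rfl i
      (by omega) ?_
    rcases (hT i hi.1).2 with h1 | h1
    · omega
    · exact h1
  choose! B u hu hB1 hB2 using hex
  -- the double count
  let cond : ℕ → ℕ → Prop := fun i n => n + (R (u i) + 3 + g) ≤ i ∧ i < n + R (u i + 1)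
  let t : ℕ → ℕ → ℝ := fun i n => ((tri (B i) (sml A i (R (u i)) n) n).card : ℝ) / 2 ^ n
  have hlow : ∀ i ∈ bad, Λ ≤ ∑ n ∈ (range J).filter (fun n => cond i n), t i n := by
    intro i hi
    have hi' := hi
    rw [hbad, mem_filter] at hi'
    have hiJ := (hT i hi'.1).1
    have hRs : R (u i + 1) = R (u i) + 3 + g + ⌈Λ * th ^ (R (u i)) / κ⌉₊ := rfl
    have hRle : R (u i + 1) ≤ r := hRm (by have := hu i hi; omega)
    have hsub : Ioc (i - R (u i + 1)) (i - (R (u i) + 3 + g)) ⊆ (range J).filter (fun n => cond i n) := by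
      intro n hn
      rw [mem_Ioc] at hn
      rw [mem_filter, mem_range]
      refine ⟨by omega, ?_, ?_⟩ <;> omega
    have hterm : ∀ n ∈ Ioc (i - R (u i + 1)) (i - (R (u i) + 3 + g)), κ / th ^ (R (u i)) ≤ t i n := by
      intro n hn
      rw [mem_Ioc] at hn
      rw [le_div_iff₀ (by positivity)]
      exact hB2 i hi n (by omega) (by omega)
    calc Λ ≤ (⌈Λ * th ^ (R (u i)) / κ⌉₊ : ℝ) * (κ / th ^ (R (u i))) := by
          have h1 : Λ * th ^ (R (u i)) / κ ≤ (⌈Λ * th ^ (R (u i)) / κ⌉₊ : ℝ) := Nat.le_ceil _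
          have h2 : 0 < th ^ (R (u i)) := pow_pos th_pos _
          have h3 : 0 < κ / th ^ (R (u i)) := by positivity
          calc Λ = Λ * th ^ (R (u i)) / κ * (κ / th ^ (R (u i))) := by field_simp
            _ ≤ _ := mul_le_mul_of_nonneg_right h1 h3.le
      _ = ∑ n ∈ Ioc (i - R (u i + 1)) (i - (R (u i) + 3 + g)), κ / th ^ (R (u i)) := by
          rw [sum_const, Nat.card_Ioc, nsmul_eq_mul]
          congr 2
          omega
      _ ≤ ∑ n ∈ Ioc (i - R (u i + 1)) (i - (R (u i) + 3 + g)), t i n := sum_le_sum hterm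
      _ ≤ _ := sum_le_sum_of_subset_of_nonneg hsub (fun n _ _ => by positivity)
  have hupp : ∀ n, ∑ i ∈ bad.filter (fun i => cond i n), t i n ≤ 3 * h := by
    intro n
    have h1 := tri_upper A hU h n (bad.filter (fun i => cond i n)) B (fun i => sml A i (R (u i)) n) (by
      intro i hi
      rw [mem_filter, hbad, mem_filter] at hi
      have : R 0 ≤ r := hRm (Nat.zero_le _)
      have h0 : R 0 = h := rfl
      omega) (fun i hi => hB1 i (mem_filter.1 hi).1) (by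
      intro i hi b hb
      rw [sml, mem_filter, mem_els] at hb
      refine ⟨hb.1.2, hb.2, lt_of_lt_of_le hb.1.1 (Nat.pow_le_pow_right (by norm_num) ?_)⟩
      have : R 0 ≤ R (u i) := hRm (Nat.zero_le _)
      have h0 : R 0 = h := rfl
      omega)
    have h2 : ((∑ i ∈ bad.filter (fun i => cond i n), (tri (B i) (sml A i (R (u i)) n) n).card : ℕ) : ℝ)
        ≤ h * (3 * 2 ^ n) := by exact_mod_cast h1
    have h3 : ∑ i ∈ bad.filter (fun i => cond i n), t i n
        = ((∑ i ∈ bad.filter (fun i => cond i n), (tri (B i) (sml A i (R (u i)) n) n).card : ℕ) : ℝ) / 2 ^ n := by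
      push_cast
      rw [sum_div]
    rw [h3, div_le_iff₀ (by positivity)]
    linarith
  have hdc : (bad.card : ℝ) * Λ ≤ 3 * h * J := by
    calc (bad.card : ℝ) * Λ = ∑ i ∈ bad, Λ := by rw [sum_const, nsmul_eq_mul]
      _ ≤ ∑ i ∈ bad, ∑ n ∈ (range J).filter (fun n => cond i n), t i n := sum_le_sum hlow
      _ = ∑ i ∈ bad, ∑ n ∈ range J, if cond i n then t i n else 0 := by
          refine sum_congr rfl fun i _ => ?_
          rw [sum_filter]
      _ = ∑ n ∈ range J, ∑ i ∈ bad, if cond i n then t i n else 0 := sum_comm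
      _ = ∑ n ∈ range J, ∑ i ∈ bad.filter (fun i => cond i n), t i n := by
          refine sum_congr rfl fun n _ => ?_
          exact (sum_filter (fun i => cond i n) (fun i => t i n)).symm
      _ ≤ ∑ n ∈ range J, (3 * h : ℝ) := sum_le_sum fun n _ => hupp n
      _ = 3 * h * J := by rw [sum_const, card_range, nsmul_eq_mul]; ring
  have hbadle : (bad.card : ℝ) ≤ ε / 2 * J := by
    have h1 : (bad.card : ℝ) * (6 * (h + 1)) ≤ 3 * h * J * ε := by
      have h2 : (bad.card : ℝ) * Λ * ε ≤ 3 * h * J * ε := mul_le_mul_of_nonneg_right hdc hε.le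
      rw [hΛ] at h2
      have h3 : (bad.card : ℝ) * (6 * (h + 1) / ε) * ε = (bad.card : ℝ) * (6 * (h + 1)) := by
        field_simp
      rwa [h3] at h2
    have h4 : (0 : ℝ) ≤ h := by positivity
    have h5 : (0 : ℝ) ≤ ε * J := by positivity
    have h6 : (0 : ℝ) < h + 1 := by positivity
    have h7 : (bad.card : ℝ) * (6 * (h + 1)) ≤ (ε / 2 * J) * (6 * (h + 1)) := by nlinarith
    exact le_of_mul_le_mul_right h7 (by positivity)
  have hT2 : T.card ≤ bad.card + i1 := by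
    have : T ⊆ bad ∪ range i1 := by
      intro i hi
      rw [mem_union, hbad, mem_filter, mem_range]
      by_cases h : i1 ≤ i
      · exact Or.inl ⟨hi, h⟩
      · exact Or.inr (by omega)
    exact (card_le_card this).trans ((card_union_le _ _).trans (by rw [card_range]))
  have hT3 : (T.card : ℝ) ≤ bad.card + i1 := by exact_mod_cast hT2
  have hJ' : (J0 : ℝ) ≤ J := by exact_mod_cast hJ
  have : (i1 : ℝ) ≤ ε / 2 * J := by
    rw [div_lt_iff₀ hε] at hJ0
    nlinarith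
  linarith

end Pool.Agent.A18
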