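import Pool.Agent.W_MP_a18a27_h33.Defs

set_option autoImplicit false

namespace Pool.Agent.A18

open Finset

/-- Correlation inside one cell.

PROOF.  Let `S = ∑ s ∈ range q, w s` and `u = S / q` (so `u ≥ 0`), `g s = w s - u`.  For all reals
`(u + g) * (u + g') ≥ u^2 - (1/8) * u^2 - (17/2) * (g^2 + g'^2)`: indeed the difference of the two sides is
`u^2/8 + u*g + u*g' + g*g' + (17/2)*(g^2+g'^2) = (u/4 + 2*g)^2 + (u/4 + 2*g')^2 + (1/2)*(g+g')^2 + 4*(g^2+g'^2)` (nlinarith / ring).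
Sum this over `s ∈ range (q - k)` with `g = g s`, `g' = g (s + k)`; `∑ s ∈ range (q-k), (g s)^2` and
`∑ s ∈ range (q-k), (g (s+k))^2` are both at most `∑ s ∈ range q, (g s)^2 = ∑ (w s)^2 - S^2/q`, so
`∑ s ∈ range (q-k), w s * w (s+k) ≥ (q-k) * (7/8) * u^2 - 17 * (∑ (w s)^2 - S^2/q)`, and
`(q - k) * (7/8) ≥ (7/8)^2 * q ≥ (3/4) * q` as `8 * k ≤ q`; `q * u^2 = S^2/q`. -/
theorem parent_corr (q k : ℕ) (w : ℕ → ℝ) (hq : 0 < q) (hk : 8 * k ≤ q) :
    (3 / 4) * ((∑ s ∈ range q, w s) ^ 2 / q)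
      - 17 * (∑ s ∈ range q, w s ^ 2 - (∑ s ∈ range q, w s) ^ 2 / q)
      ≤ ∑ s ∈ range (q - k), w s * w (s + k) := by
  have hqR : (0 : ℝ) < q := by exact_mod_cast hq
  have hkq : k ≤ q := by omega
  have hkR : 8 * (k : ℝ) ≤ q := by exact_mod_cast hk
  obtain ⟨S, hS⟩ : ∃ S : ℝ, S = ∑ s ∈ range q, w s := ⟨_, rfl⟩
  obtain ⟨u, hu⟩ : ∃ u : ℝ, u = S / q := ⟨_, rfl⟩
  have hquS : (q : ℝ) * u = S := by rw [hu]; field_simp
  obtain ⟨G, hG⟩ : ∃ G : ℝ, G = ∑ s ∈ range q, (w s - u) ^ 2 := ⟨_, rfl⟩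
  have hSq : S ^ 2 / q = q * u ^ 2 := by rw [hu]; field_simp
  have hG2 : G = ∑ s ∈ range q, w s ^ 2 - q * u ^ 2 := by
    rw [hG]
    have h1 : ∀ s ∈ range q, (w s - u) ^ 2 = w s ^ 2 - (2 * u) * w s + u ^ 2 := by
      intro s _
      ring
    rw [Finset.sum_congr rfl h1, Finset.sum_add_distrib, Finset.sum_sub_distrib,
      ← Finset.mul_sum, ← hS, Finset.sum_const, Finset.card_range, nsmul_eq_mul, ← hquS]
    ring
  have hterm : ∀ s ∈ range (q - k), (7 / 8) * u ^ 2 -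
      (17 / 2) * ((w s - u) ^ 2 + (w (s + k) - u) ^ 2) ≤ w s * w (s + k) := by
    intro s _
    have h1 : w s * w (s + k) - ((7 / 8) * u ^ 2 -
      (17 / 2) * ((w s - u) ^ 2 + (w (s + k) - u) ^ 2)) =
      (u / 4 + 2 * (w s - u)) ^ 2 + (u / 4 + 2 * (w (s + k) - u)) ^ 2 +
        (1 / 2) * ((w s - u) + (w (s + k) - u)) ^ 2 +
        4 * ((w s - u) ^ 2 + (w (s + k) - u) ^ 2) := by ring
    have h2 : 0 ≤ (u / 4 + 2 * (w s - u)) ^ 2 + (u / 4 + 2 * (w (s + k) - u)) ^ 2 +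
        (1 / 2) * ((w s - u) + (w (s + k) - u)) ^ 2 +
        4 * ((w s - u) ^ 2 + (w (s + k) - u) ^ 2) := by positivity
    linarith
  have hsum := Finset.sum_le_sum hterm
  rw [Finset.sum_sub_distrib, Finset.sum_const, Finset.card_range, nsmul_eq_mul,
    ← Finset.mul_sum, Finset.sum_add_distrib] at hsum
  have hA : ∑ s ∈ range (q - k), (w s - u) ^ 2 ≤ G := by
    rw [hG]
    apply Finset.sum_le_sum_of_subset_of_nonneg
    · intro s hs
      rw [Finset.mem_range] at *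
      omega
    · intro s _ _
      exact sq_nonneg _
  have hB : ∑ s ∈ range (q - k), (w (s + k) - u) ^ 2 ≤ G := by
    have h1 : ∑ s ∈ range (q - k), (w (s + k) - u) ^ 2 = ∑ s ∈ Finset.Ico k q, (w s - u) ^ 2 := by
      rw [Finset.sum_Ico_eq_sum_range]
      apply Finset.sum_congr rfl
      intro s _
      rw [add_comm]
    rw [h1, hG]
    apply Finset.sum_le_sum_of_subset_of_nonneg
    · intro s hs
      rw [Finset.mem_Ico] at hs
      rw [Finset.mem_range]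
      exact hs.2
    · intro s _ _
      exact sq_nonneg _
  have hcast : ((q - k : ℕ) : ℝ) = (q : ℝ) - k := by
    rw [Nat.cast_sub hkq]
  rw [hcast] at hsum
  have hlow : (3 / 4) * ((q : ℝ) * u ^ 2) ≤ ((q : ℝ) - k) * ((7 / 8) * u ^ 2) := by
    have h1 : (3 / 4) * (q : ℝ) ≤ ((q : ℝ) - k) * (7 / 8) := by linarith
    have h2 := mul_le_mul_of_nonneg_right h1 (sq_nonneg u)
    linarith
  rw [← hS, hSq, ← hG2]
  linarith

end Pool.Agent.A18
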