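import Pool.Agent.W_MP_a18a27_h33.Defs

set_option autoImplicit false

namespace Pool.Agent.A18

open Finset

/-- The `B_3` property of a sequence of integers. -/
def IsB3 (a : ℕ → ℤ) : Prop := ∀ i j l i' j' l' : ℕ, i ≤ j → j ≤ l → i' ≤ j' → j' ≤ l' →
  a i + a j + a l = a i' + a j' + a l' → i = i' ∧ j = j' ∧ l = l'

/-- The set of the nonnegative terms. -/
def ran (a : ℕ → ℤ) : Set ℕ := {x | ∃ n, a n = (x : ℤ)}

/-- PROOF.  Let `x = a p`, `z = a q`, `b = a s`, `x' = a p'`, `z' = a q'`, `b' = a s'`; `s < q < p`, `s' < q' < p'` (`StrictMono.lt_iff_lt`).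
The equation says that the multisets `{p, q', s'}` and `{p', q, s}` of indices have the same sum, so by `IsB3` (applied to the
sorted triples) they are equal.  The sorted triple of the first is `(s', q', p)`, `(s', p, q')` or `(p, s', q')`, similarly for
the second; if `p ≥ q'` and `p' ≥ q` then `(s', q', p) = (s, q, p')` and we are done.  If `p < q'` then the
maximum of the first triple is `q' < p'`; the maximum of the second triple is `≥ p'`, contradiction.  The same for `p' < q`
(omega in every case, after `IsB3` for the appropriate orders). -/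
theorem u3_ran {a : ℕ → ℤ} (hm : StrictMono a) (h : IsB3 a) : U3 (ran a) := by
  rintro x ⟨p, hp⟩ z ⟨q, hq⟩ b ⟨s, hs⟩ x' ⟨p', hp'⟩ z' ⟨q', hq'⟩ b' ⟨s', hs'⟩ h1 h2 h3 h4 he
  have e : a p + a q' + a s' = a p' + a q + a s := by
    rw [hp, hq, hs, hp', hq', hs']
    exact_mod_cast he
  have i1 : s < q := hm.lt_iff_lt.1 (by rw [hs, hq]; exact_mod_cast h1)
  have i2 : q < p := hm.lt_iff_lt.1 (by rw [hq, hp]; exact_mod_cast h2)
  have i3 : s' < q' := hm.lt_iff_lt.1 (by rw [hs', hq']; exact_mod_cast h3)
  have i4 : q' < p' := hm.lt_iff_lt.1 (by rw [hq', hp']; exact_mod_cast h4)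
  have key : p = p' ∧ q = q' ∧ s = s' := by
    rcases le_or_gt q' p with c1 | c1
    · rcases le_or_gt q p' with c2 | c2
      · have := h s' q' p s q p' i3.le c1 i1.le c2 (by linarith)
        omega
      · rcases le_or_gt s p' with c3 | c3
        · have := h s' q' p s p' q i3.le c1 c3 c2.le (by linarith)
          omega
        · have := h s' q' p p' s q i3.le c1 c3.le i1.le (by linarith)
          omega
    · rcases le_or_gt s' p with c3 | c3
      · rcases le_or_gt q p' with c2 | c2
        · have := h s' p q' s q p' c3 c1.le i1.le c2 (by linarith)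
          omega
        · omega
      · rcases le_or_gt q p' with c2 | c2
        · have := h p s' q' s q p' c3.le i3.le i1.le c2 (by linarith)
          omega
        · omega
  obtain ⟨rfl, rfl, rfl⟩ := key
  have g1 : (x : ℤ) = x' := by rw [← hp, ← hp']
  have g2 : (z : ℤ) = z' := by rw [← hq, ← hq']
  have g3 : (b : ℤ) = b' := by rw [← hs, ← hs']
  exact ⟨by exact_mod_cast g1, by exact_mod_cast g2, by exact_mod_cast g3⟩

end Pool.Agent.A18
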